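import Pool.Agent.Y173.KR.Gen

/-! The product of a form on the base and a form on the constant factor. -/

set_option autoImplicit false
set_option linter.overlappingInstances false
set_option linter.unusedSectionVars false

open FF IntermediateField Pool.Agent.W619.PQ Pool.Agent.W619.PL Pool.Agent.W619.TW
  Pool.Agent.W603.LV Pool.Agent.W619.Y Pool.Agent.W308.PG.YLOC Pool.Agent.Y173.QA
  Pool.Agent.Y173.QM

namespace Pool.Agent.Y173.KR

variable {k : Type} [Field k] {L : Type} [Field L] [Algebra k L]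

/-- The condition of Reid-Tai type along the general fibre of the map to the variety with function
field `M`, relative to the factor with function field `P`: if `g ≠ 1` in `G`, of order `d`, fixes a
prime divisor `w` which dominates the base (all elements of `M` have order zero) pointwise, and acts
on the elements `θ 1, ..., θ f` of `V`, which are independent relative to `M ⊔ P`, by
`ζ ^ a 1, ..., ζ ^ a f` with `0 ≤ a i < d`, where `ζ` is a primitive `d`-th root of unity, then
`c + ∑ a i ≥ d`, where `c = 0` if all elements of `P` have order zero along `w`, and otherwise `c` is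
any positive order along `w` of an element of `P`. -/
def ReidTaiFib (m p f : ℕ) (G : Subgroup (L ≃ₐ[k] L)) (M P : IntermediateField k L)
    (V : Submodule k (Derivation k L L →ₗ[L] L)) : Prop :=
  ∀ g ∈ G, g ≠ 1 → ∀ w : Place k L, IsDivisorial w (m + p + f) → (∀ x ∈ M, w.ord x = 0) →
    (∀ z, w.Reg z → g z - z = 0 ∨ 1 ≤ w.ord (g z - z)) →
    ∀ ζ : k, IsPrimitiveRoot ζ (orderOf g) →
    ∀ (θ : Fin f → Derivation k L L →ₗ[L] L) (a : Fin f → ℕ),
      (∀ i, θ i ∈ V ∧ a i < orderOf g ∧ IsImage g (θ i) (ζ ^ a i • θ i)) →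
      IndepOver (m := m + p) (M ⊔ P) θ → ∀ c : ℕ, BaseOrd P w c → orderOf g ≤ c + ∑ i, a i

theorem ai_of_ld {P Q : IntermediateField k L} (h : P.LinearDisjoint Q) {ι : Type} {s : ι → P}
    (hs : AlgebraicIndependent k s) : AlgebraicIndependent Q (fun i => (s i : L)) := by
  classical
  have h1 : LinearIndependent k (fun d : ι →₀ ℕ =>
      MvPolynomial.aeval s (MvPolynomial.monomial d (1 : k))) := by
    have h2 := (MvPolynomial.basisMonomials ι k).linearIndependent.map'
      (MvPolynomial.aeval (R := k) s).toLinearMap (LinearMap.ker_eq_bot.2 hs)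
    have h3 : ((MvPolynomial.aeval (R := k) s).toLinearMap ∘ (MvPolynomial.basisMonomials ι k)) =
        (fun d : ι →₀ ℕ => MvPolynomial.aeval s (MvPolynomial.monomial d (1 : k))) := by
      funext d
      simp [MvPolynomial.coe_basisMonomials]
    rwa [h3] at h2
  have h2 : LinearIndependent Q (fun d : ι →₀ ℕ =>
      ((MvPolynomial.aeval s (MvPolynomial.monomial d (1 : k)) : P) : L)) :=
    h.linearIndependent_left h1
  rw [algebraicIndependent_iff]
  intro p hp
  by_contra hp0
  obtain ⟨d, hd⟩ := MvPolynomial.ne_zero_iff.1 hp0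
  refine hd (linearIndependent_iff'.1 h2 p.support (fun d => p.coeff d) ?_ d
    (MvPolynomial.mem_support_iff.2 hd))
  rw [← hp, MvPolynomial.aeval_def, MvPolynomial.eval₂_eq]
  refine Finset.sum_congr rfl fun d _ => ?_
  rw [Algebra.smul_def]
  congr 1
  rw [MvPolynomial.aeval_monomial, map_one, one_mul, Finsupp.prod]
  push_cast
  rfl

variable [CharZero k]

/-- **Goodness of the product.** -/
theorem good_prod {m p f : ℕ} {G : Subgroup (L ≃ₐ[k] L)} {M P : IntermediateField k L}
    (hG : M ≤ fixedField G) {V : Submodule k (Derivation k L L →ₗ[L] L)}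
    (hRT : ReidTaiFib m p f G M P V) {m0 : ℕ} {v : Place k (fixedField G)} {w : Place k L} {e : ℕ}
    (hwv : Over w v e) (hw : IsDivisorial w (m + p + f)) {h : G} {ζ : k}
    (hord : orderOf (h : L ≃ₐ[k] L) = e) (hζ : IsPrimitiveRoot ζ e) {y : Fin m → L} {x : Fin p → L}
    {a a' : L} (hy : BGood M m m0 w y a) (hx : BGood P p m0 w x a') :
    GGood (M ⊔ P) V f m0 w e (h : L ≃ₐ[k] L) ζ (Fin.append y x) (a * a') := by
  classical
  obtain ⟨Z1, z1, c1, bl1, hz1M, hz1r, hyz1, hdet1, hc1, hbl1, hblc1⟩ := hy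
  obtain ⟨Z2, z2, c2, bl2, hz2M, hz2r, hyz2, hdet2, hc2, hbl2, hblc2⟩ := hx
  let B : Matrix (Fin (m + p)) (Fin (m + p)) L :=
    Matrix.reindex finSumFinEquiv finSumFinEquiv (Matrix.fromBlocks Z1 0 0 Z2)
  have hB : B.det = Z1.det * Z2.det := by
    rw [Matrix.det_reindex_self, Matrix.det_fromBlocks_zero₂₁]
  have hB11 : ∀ l c, B (Fin.castAdd p l) (Fin.castAdd p c) = Z1 l c := fun l c => by
    simp [B, Matrix.reindex_apply, Matrix.submatrix_apply]
  have hB12 : ∀ l c, B (Fin.castAdd p l) (Fin.natAdd m c) = 0 := fun l c => by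
    simp [B, Matrix.reindex_apply, Matrix.submatrix_apply]
  have hB21 : ∀ l c, B (Fin.natAdd m l) (Fin.castAdd p c) = 0 := fun l c => by
    simp [B, Matrix.reindex_apply, Matrix.submatrix_apply]
  have hB22 : ∀ l c, B (Fin.natAdd m l) (Fin.natAdd m c) = Z2 l c := fun l c => by
    simp [B, Matrix.reindex_apply, Matrix.submatrix_apply]
  refine ⟨B, Fin.append z1 z2, c1 + c2, Fin.append bl1 bl2, ?_, ?_, ?_, ?_, ?_, ?_, ?_⟩
  · intro l
    refine Fin.addCases (fun l => ?_) (fun l => ?_) l
    · rw [Fin.append_left]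
      exact (le_sup_left : M ≤ M ⊔ P) (hz1M l)
    · rw [Fin.append_right]
      exact (le_sup_right : P ≤ M ⊔ P) (hz2M l)
  · intro l
    refine Fin.addCases (fun l => ?_) (fun l => ?_) l
    · rw [Fin.append_left]; exact hz1r l
    · rw [Fin.append_right]; exact hz2r l
  · intro D l
    rw [Fin.sum_univ_add]
    refine Fin.addCases (fun l => ?_) (fun l => ?_) l
    · simp only [Fin.append_left, Fin.append_right, hB11, hB12, zero_mul, Finset.sum_const_zero,
        add_zero]
      exact hyz1 D l
    · simp only [Fin.append_left, Fin.append_right, hB21, hB22, zero_mul, Finset.sum_const_zero,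
        zero_add]
      exact hyz2 D l
  · rw [hB, mul_pow]
    have h1 := hdet1.mul hdet2
    rw [add_zero] at h1
    have h2 : a * a' * (Z1.det ^ m0 * Z2.det ^ m0) = a * Z1.det ^ m0 * (a' * Z2.det ^ m0) := by
      ring
    rw [h2]
    exact h1
  · intro l
    refine Fin.addCases (fun l => ?_) (fun l => ?_) l
    · rw [Fin.append_left, Fin.append_left]; exact hbl1 l
    · rw [Fin.append_right, Fin.append_right]; exact hbl2 l
  · rw [Fin.sum_univ_add]
    simp only [Fin.append_left, Fin.append_right]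
    rw [hblc1, hblc2]
    push_cast
    rfl
  · intro he2 hfix θ α hθ hind
    rcases Nat.eq_zero_or_pos c1 with h0 | h0
    · have hMtriv : ∀ x ∈ M, w.ord x = 0 := by
        intro x hx
        by_cases hx0 : x = 0
        · rw [hx0, w.ord_zero]
        · exact hc1.2 h0 x hx hx0
      have h1 := hRT h h.2 (fun h1 => by rw [h1, orderOf_one] at hord; omega) w hw hMtriv hfix ζ
        (hord ▸ hζ) θ α (fun i => by rw [hord]; exact hθ i) hind c2 hc2
      rw [hord] at h1
      omega
    · obtain ⟨⟨x, hxM, hx0, hxc⟩, -⟩ := hc1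
      have h1 := hwv.2 ⟨x, hG hxM⟩
      change w.ord x = _ at h1
      rw [hxc] at h1
      have h2 : (e : ℤ) ∣ c1 := ⟨_, h1⟩
      have h3 : e ∣ c1 := by exact_mod_cast h2
      have h4 := Nat.le_of_dvd h0 h3
      omega

/-- the powers of the forms -/
theorem pow_form {K : Type} [Field K] [Algebra k K] {n m h : ℕ}
    {ω : Fin (h + 1) → (Fin n → Derivation k K K) → K}
    (hω : ∀ l, IsSec k K n (fun _ => False) {1} m 0 (ω l)) {c : ℕ} (hc : 1 ≤ c) (l : Fin (h + 1)) :
    IsPluriForm k K n (m * c) (fun D => ω l D * ω 0 D ^ (c - 1)) ∧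
      ∀ u : Place k K, IsDivisorial u n → RegularAt u n (fun D => ω l D * ω 0 D ^ (c - 1)) := by
  have hreg : ∀ l, ∀ u : Place k K, IsDivisorial u n → RegularAt u n (ω l) := by
    intro l u hu D hD
    rcases (hω l).2.1 u hu (fun h => h) D hD with h3 | ⟨s, -, hs0, h3⟩
    · exact Or.inl h3
    · right
      simpa using h3
  refine ⟨?_, ?_⟩
  · intro A D
    change ω l _ * ω 0 _ ^ (c - 1) = _
    rw [(hω l).1 A D, (hω 0).1 A D, mul_pow, ← pow_mul]
    have h1 : m * c = m + m * (c - 1) := by
      obtain ⟨c', rfl⟩ : ∃ c', c = c' + 1 := ⟨c - 1, by omega⟩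
      rw [Nat.add_sub_cancel]
      ring
    rw [h1, pow_add]
    ring
  · intro u hu D hD
    have h1 : Ge u 0 (ω l D) := hreg l u hu D hD
    have h2 : Ge u 0 (ω 0 D) := hreg 0 u hu D hD
    have h3 := h1.mul (h2.pow (c - 1))
    rw [mul_zero, add_zero] at h3
    exact h3

end Pool.Agent.Y173.KR
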