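import Pool.Agent.Y173.KR.Stm

/-! Project KR (helper173), part KR-CFP: the coefficients in `P` of a relative pluricanonical form
are pluricanonical forms of `P`. Adaptation of `Pool.Agent.Y173.KU.Dsc`. -/

set_option autoImplicit false
set_option linter.all false

open FF IntermediateField Pool.Agent.W619.PQ Pool.Agent.W619.PL Pool.Agent.W619.TW
  Pool.Agent.W603.LV Pool.Agent.W619.Y

namespace Pool.Agent.Y173.KR.Cfp

open Pool.Agent.W735.PG.DESCJ (der_sum)

theorem main (hDIV : S_DIV) : S_CFP := by
  intro k L _ _ _ _ _ _ M P Q _ _ m p f hMQ hdim w z E hFr N ω hω r β μ hβ hsum i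
  classical
  haveI : CharZero M := charZero_of_injective_algebraMap (algebraMap k M).injective
  have hP : Pool.Agent.Y173.KU.Prd P Q :=
    Pool.Agent.Y173.KU.prd_of_trdeg hdim.sup hdim.tL hdim.tP hdim.tQ
  refine ⟨?_, ?_, fun u hu hf => hf.elim⟩
  · intro A D
    have h2 : (Matrix.of fun a b => (∑ c, A a c • D c) (w b)) =
        A * Matrix.of fun a b => D a (w b) := by
      ext a b
      rw [Matrix.of_apply, Matrix.mul_apply]
      simp only [Matrix.of_apply]
      congr 1
      exact der_sum (L := P) _ _ _ _
    show μ i * (Matrix.of fun a b => (∑ c, A a c • D c) (w b)).det ^ N = _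
    rw [h2, Matrix.det_mul]
    ring
  · intro u hu _ D hD
    obtain ⟨U, hU1, hU2, hU3, hU4, hU5⟩ :=
      Pool.Agent.Y173.KU.Gau.main k L P Q p (m + f) hP hdim.tP hdim.tQ u
    have hUM : ∀ x : M, U.ord (x : L) = 0 := fun x => hU2 ⟨x, hMQ x.2⟩
    have hVdiv : IsDivisorial (lift U hUM) (p + f) := by
      refine (hDIV k L M m (p + f) hdim.tM ?_ (lift U hUM)).2 ?_
      · rw [hdim.tL]; congr 1; omega
      · have h4 := hU4 hu
        have h5 : p + (m + f) = m + (p + f) := by omega
        rw [h5] at h4
        exact h4
    -- the derivations of `L`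
    let D' : Fin (p + f) → Derivation M L L :=
      Fin.addCases (fun l => ∑ b, ((D l (w b) : P) : L) • E (Fin.castAdd f b))
        (fun l => E (Fin.natAdd p l))
    have hD'1 : ∀ l : Fin p, D' (Fin.castAdd f l) =
        ∑ b, ((D l (w b) : P) : L) • E (Fin.castAdd f b) := fun l => Fin.addCases_left l
    have hD'2 : ∀ l : Fin f, D' (Fin.natAdd p l) = E (Fin.natAdd p l) :=
      fun l => Fin.addCases_right l
    let B : Matrix (Fin p ⊕ Fin f) (Fin p ⊕ Fin f) L :=
      Matrix.fromBlocks (Matrix.of fun a b => ((D a (w b) : P) : L)) 0 0 1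
    let A : Matrix (Fin (p + f)) (Fin (p + f)) L :=
      Matrix.reindex finSumFinEquiv finSumFinEquiv B
    have hAB : ∀ a b : Fin p ⊕ Fin f, A (finSumFinEquiv a) (finSumFinEquiv b) = B a b := by
      intro a b
      simp [A]
    have hA : (fun a => ∑ c, A a c • E c) = D' := by
      funext a
      rw [← Equiv.sum_comp finSumFinEquiv (fun c => A a c • E c), Fintype.sum_sum_type]
      obtain ⟨a', rfl⟩ := finSumFinEquiv.surjective a
      simp only [hAB]
      rcases a' with l | l
      · have e1 : D' (finSumFinEquiv (Sum.inl l)) =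
            ∑ b, ((D l (w b) : P) : L) • E (Fin.castAdd f b) := hD'1 l
        rw [e1]
        simp [B]
      · have e1 : D' (finSumFinEquiv (Sum.inr l)) = E (Fin.natAdd p l) := hD'2 l
        rw [e1]
        simp [B, Matrix.one_apply]
    have hdet : A.det = (((Matrix.of fun a b => D a (w b)).det : P) : L) := by
      have h6 := (algebraMap P L).map_det (Matrix.of fun a b => D a (w b))
      rw [Matrix.det_reindex_self, Matrix.det_fromBlocks_zero₂₁, Matrix.det_one, mul_one]
      refine Eq.trans ?_ h6.symm
      rfl
    have hωD : ω D' = (((Matrix.of fun a b => D a (w b)).det : P) : L) ^ N * ω E := by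
      rw [← hdet, ← hω.1 A E, hA]
    -- the derivations preserve the valuation ring of `U`
    have hyM : ∀ (l : Fin p) (x : P), D' (Fin.castAdd f l) (x : L) = ((D l x : P) : L) := by
      intro l x
      refine der_comp (K := P) (L := L) (D l) ((D' (Fin.castAdd f l)).restrictScalars k) w hFr.bw
        (fun c => ?_) x
      show D' (Fin.castAdd f l) ((w c : P) : L) = ((D l (w c) : P) : L)
      rw [hD'1, der_sum]
      simp only [hFr.e2]
      simp
    have hpres : ∀ a, Pres (lift U hUM) (D' a) := by
      intro a
      refine Fin.addCases (fun l => ?_) (fun l => ?_) a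
      · refine hU5 ((D' (Fin.castAdd f l)).restrictScalars k)
          (fun x hx => ⟨D l x, hyM l x, hD l x hx⟩) (fun β => ⟨0, ?_⟩)
        show D' (Fin.castAdd f l) (β : L) = _
        rw [hD'1, der_sum]
        simp [hFr.e1]
      · rw [hD'2]
        refine hU5 ((E (Fin.natAdd p l)).restrictScalars k)
          (fun x _ => ⟨0, ?_, u.reg_zero⟩) (fun β => ?_)
        · show E (Fin.natAdd p l) (x : L) = _
          rw [hFr.e3]; rfl
        · obtain ⟨E', hE'⟩ := exists_dual z hFr.bz l
          have h7 := der_comp (K := extendScalars hMQ) (L := L) E' (E (Fin.natAdd p l)) z hFr.bz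
            (fun c => by
              show E (Fin.natAdd p l) ((z c : extendScalars hMQ) : L) =
                ((E' (z c) : extendScalars hMQ) : L)
              rw [hFr.e4, hE']
              by_cases hlc : l = c
              · subst hlc
                simp
              · rw [if_neg hlc, if_neg (Ne.symm hlc)]
                rfl) ⟨β, β.2⟩
          exact ⟨⟨E' ⟨β, β.2⟩, (E' ⟨β, β.2⟩).2⟩, h7⟩
    have hdom := hω.2.1 (lift U hUM) hVdiv (fun h => h) D' hpres
    set δ : P := (Matrix.of fun a b => D a (w b)).det with hδ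
    have hexp : ω D' = ∑ i, (β i : L) * ((μ i * δ ^ N : P) : L) := by
      rw [hωD, hsum, Finset.mul_sum]
      refine Finset.sum_congr rfl fun i _ => ?_
      push_cast; ring
    show Dom u {1} 0 (μ i * δ ^ N)
    have h9 : Ge U 0 (ω D') := by
      rcases hdom with h0 | ⟨s, hs, hs0, hsU⟩
      · exact Or.inl h0
      · right
        have : (0 : ℤ) ≤ (lift U hUM).ord (ω D') := by simpa using hsU
        exact this
    rw [hexp] at h9
    rcases hU3 r β (fun i => μ i * δ ^ N) _ hβ h9 i with h12 | h12
    · left; exact h12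
    · right
      exact ⟨1, by simp, one_ne_zero, by simpa using h12⟩

end Pool.Agent.Y173.KR.Cfp
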