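import Pool.Agent.Y173.KR.Cfq

/-! Relative pluricanonical forms: the coefficients in `P`. -/

set_option autoImplicit false
set_option linter.all false

open FF IntermediateField Pool.Agent.W619.PQ Pool.Agent.W619.PL Pool.Agent.W619.TW
  Pool.Agent.W603.LV Pool.Agent.W619.Y

namespace Pool.Agent.Y173.KR.Cfp2

open Pool.Agent.W735.PG.DESCJ (der_sum)

theorem main (hDIV : S_DIV) : S_CFP := by
  intro k L _ _ _ _ _ _ M P Q _ _ m p f hMQ hDim w z E hFr N ω hω r β μ hβ hsum i
  classical
  have hP : Pool.Agent.Y173.KU.Prd P Q := Cfq.prd' hDim.sup hDim.tL hDim.tP hDim.tQ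
  refine ⟨?_, ?_, fun u hu hf => hf.elim⟩
  · intro A D
    have h2 : (Matrix.of fun a b => (∑ c, A a c • D c) (w b)) =
        A * Matrix.of fun a b => D a (w b) := by
      refine Matrix.ext fun a b => ?_
      rw [Matrix.of_apply, Matrix.mul_apply]
      simp only [Matrix.of_apply]
      exact der_sum (L := P) _ _ _ _
    show μ i * (Matrix.of fun a b => (∑ c, A a c • D c) (w b)).det ^ N = _
    rw [h2, Matrix.det_mul]
    ring
  · intro v hv _ D hD
    obtain ⟨U, hU1, hU2, hU3, hU4, hU5⟩ := Pool.Agent.Y173.KU.Gau.main k L P Q p (m + f) hP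
      hDim.tP hDim.tQ v
    have hUM : ∀ x : M, U.ord (x : L) = 0 := fun x => hU2 ⟨x.1, hMQ x.2⟩
    let W : Place M L := lift U hUM
    have hWU : low W = U := rfl
    have hWd : IsDivisorial W (p + f) := by
      rw [hDIV k L M m (p + f) hDim.tM (by rw [hDim.tL]; congr 1; omega) W, hWU,
        show m + (p + f) = p + (m + f) by omega]
      exact hU4 hv
    -- the derivations of `L`
    let D' : Fin (p + f) → Derivation M L L :=
      Fin.addCases (fun l => ∑ b, ((D l (w b) : P) : L) • E (Fin.castAdd f b))
        (fun l => E (Fin.natAdd p l))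
    have hD'1 : ∀ l : Fin p, D' (Fin.castAdd f l) =
        ∑ b, ((D l (w b) : P) : L) • E (Fin.castAdd f b) :=
      fun l => Fin.addCases_left l
    have hD'2 : ∀ l : Fin f, D' (Fin.natAdd p l) = E (Fin.natAdd p l) :=
      fun l => Fin.addCases_right l
    let B : Matrix (Fin p ⊕ Fin f) (Fin p ⊕ Fin f) L :=
      Matrix.fromBlocks (Matrix.of fun a b => ((D a (w b) : P) : L)) 0 0 1
    let A : Matrix (Fin (p + f)) (Fin (p + f)) L :=
      Matrix.reindex finSumFinEquiv finSumFinEquiv B
    have hAB : ∀ a b : Fin p ⊕ Fin f, A (finSumFinEquiv a) (finSumFinEquiv b) = B a b := by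
      intro a b
      simp [A]
    have hA : (fun a => ∑ c, A a c • E c) = D' := by
      funext a
      rw [← Equiv.sum_comp finSumFinEquiv (fun c => A a c • E c), Fintype.sum_sum_type]
      obtain ⟨a', rfl⟩ := finSumFinEquiv.surjective a
      simp only [hAB]
      rcases a' with l | l
      · have e1 : D' (finSumFinEquiv (Sum.inl l)) =
            ∑ b, ((D l (w b) : P) : L) • E (Fin.castAdd f b) := hD'1 l
        rw [e1]
        simp [B]
      · have e1 : D' (finSumFinEquiv (Sum.inr l)) = E (Fin.natAdd p l) := hD'2 l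
        rw [e1]
        simp [B, Matrix.one_apply]
    have hdet : A.det = (((Matrix.of fun a b => D a (w b)).det : P) : L) := by
      have h6 := (algebraMap P L).map_det (Matrix.of fun a b => D a (w b))
      rw [Matrix.det_reindex_self, Matrix.det_fromBlocks_zero₂₁, Matrix.det_one, mul_one]
      refine Eq.trans ?_ h6.symm
      rfl
    have hωD : ω D' = (((Matrix.of fun a b => D a (w b)).det : P) : L) ^ N * ω E := by
      rw [← hdet, ← hω.1 A E, hA]
    haveI : CharZero M := charZero_of_injective_algebraMap (algebraMap k M).injective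
    have hyM : ∀ (l : Fin p) (x : P), D' (Fin.castAdd f l) (x : L) = ((D l x : P) : L) := by
      intro l x
      refine der_comp (k := k) (K := P) (L := L) (D l)
        ((D' (Fin.castAdd f l)).restrictScalars k) w hFr.bw (fun c => ?_) x
      show D' (Fin.castAdd f l) ((w c : P) : L) = ((D l (w c) : P) : L)
      rw [hD'1, der_sum]
      simp only [hFr.e2]
      simp
    have hpres : ∀ a, ∀ x, W.Reg x → W.Reg (D' a x) := by
      intro a
      have hP' : Pres U ((D' a).restrictScalars k) := by
        refine Fin.addCases (fun l => ?_) (fun l => ?_) a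
        · refine hU5 _ (fun x hx => ⟨D l x, hyM l x, hD l _ hx⟩) (fun x => ⟨0, ?_⟩)
          show D' (Fin.castAdd f l) (x : L) = _
          rw [hD'1, der_sum]
          simp [hFr.e1]
        · refine hU5 _ (fun x _ => ⟨0, ?_, v.reg_zero⟩) (fun x => ?_)
          · show D' (Fin.natAdd p l) (x : L) = _
            rw [hD'2, hFr.e3]
            rfl
          · obtain ⟨E', hE'⟩ := exists_dual z hFr.bz l
            refine ⟨⟨(E' (⟨x.1, x.2⟩ : extendScalars hMQ)).1,
              (E' (⟨x.1, x.2⟩ : extendScalars hMQ)).2⟩, ?_⟩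
            refine der_comp (k := M) (K := extendScalars hMQ) (L := L) E'
              (D' (Fin.natAdd p l)) z hFr.bz (fun c => ?_) ⟨x.1, x.2⟩
            show D' (Fin.natAdd p l) ((z c : extendScalars hMQ) : L) =
              ((E' (z c) : extendScalars hMQ) : L)
            rw [hD'2, hFr.e4, hE']
            by_cases hlc : l = c
            · subst hlc
              simp
            · rw [if_neg hlc, if_neg (Ne.symm hlc)]
              rfl
      exact hP'
    have hdom := hω.2.1 W hWd (fun h => h) D' hpres
    set δ : P := (Matrix.of fun a b => D a (w b)).det with hδ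
    have hexp : ω D' = ∑ i, (β i : L) * ((μ i * δ ^ N : P) : L) := by
      rw [hωD, hsum, Finset.mul_sum]
      refine Finset.sum_congr rfl fun i _ => ?_
      push_cast
      ring
    have hge : Ge U 0 (ω D') := by
      rcases hdom with h0 | ⟨s, hs, hs0, hsU⟩
      · exact Or.inl h0
      · refine Or.inr ?_
        rw [Nat.cast_zero, zero_mul] at hsU
        exact hsU
    rw [hexp] at hge
    have h9 := hU3 r β (fun i => μ i * δ ^ N) 0 hβ hge i
    show Dom v {1} 0 (μ i * δ ^ N)
    rcases h9 with h9 | h9
    · left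
      exact h9
    · right
      refine ⟨1, Finset.mem_singleton_self _, one_ne_zero, ?_⟩
      rw [Nat.cast_zero, zero_mul]
      exact h9

end Pool.Agent.Y173.KR.Cfp2
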