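import Pool.Agent.Y173.KR.Stm
import Pool.Agent.Y173.KU.Gau
import Pool.Agent.Y173.KU.Dsc
import Pool.Agent.W904.PG.UNI

/-! Relative pluricanonical forms (project KR, helper173), part KR-CFQ (helper858): the
coefficients in `Q`. Adaptation of `Pool.Agent.Y173.KU.Dsc`. -/

set_option autoImplicit false
set_option linter.all false

open FF IntermediateField Pool.Agent.W619.PQ Pool.Agent.W619.PL Pool.Agent.W619.TW
  Pool.Agent.W603.LV Pool.Agent.W619.Y

namespace Pool.Agent.Y173.KR.Cfq

open Pool.Agent.W735.PG.DESCJ (der_sum)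

/-- the product from the dimensions (copy of `prd_of_trdeg` in `KU/Sec.lean`) -/
theorem prd' {k : Type} [Field k] [CharZero k] {L : Type} [Field L] [Algebra k L]
    {M F : IntermediateField k L} [IsAlgClosed k] (hsup : M ⊔ F = ⊤) {m f : ℕ}
    (htr : Algebra.trdeg k L = (m + f : ℕ)) (hm : Algebra.trdeg k M = m)
    (hf : Algebra.trdeg k F = f) : Pool.Agent.Y173.KU.Prd M F := by
  classical
  refine ⟨?_, hsup⟩
  obtain ⟨s, hs⟩ := exists_isTranscendenceBasis k M
  have h1 := Pool.Agent.W904.PG.T2 (k := k) (P := F) (M := M) (L := L) M.val _ hs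
    (Pool.Agent.W904.PG.indep M F m f hm htr hf.le hsup s hs)
  refine IntermediateField.LinearDisjoint.of_basis_left (Module.Basis.ofVectorSpace k M) ?_
  let b := Module.Basis.ofVectorSpace k M
  let Φ := Algebra.TensorProduct.productLeftAlgHom (Algebra.ofId F L) M.val
  have h2 : LinearIndependent F (fun i => Φ ((Algebra.TensorProduct.basis F b) i)) :=
    (Algebra.TensorProduct.basis F b).linearIndependent.map' Φ.toLinearMap
      (LinearMap.ker_eq_bot.2 h1)
  have h3 : (fun i => Φ ((Algebra.TensorProduct.basis F b) i)) = fun i => ((b i : M) : L) := by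
    funext i
    rw [Algebra.TensorProduct.basis_apply]
    simp [Φ, Algebra.ofId_apply]
  rw [h3] at h2
  exact h2

section

variable {k L : Type} [Field k] [CharZero k] [IsAlgClosed k] [Field L] [Algebra k L] {M Q : IntermediateField k L}

/-- a place of `Q` over `M`, as a place over `k` -/
def dn (h : M ≤ Q) (v : Place M (extendScalars h)) : Place k Q where
  ord x := v.ord (⟨x.1, x.2⟩ : extendScalars h)
  ord_zero := v.ord_zero
  ord_mul := fun {x y} hx hy => v.ord_mul (f := (⟨x.1, x.2⟩ : extendScalars h))
    (g := (⟨y.1, y.2⟩ : extendScalars h)) (fun h0 => hx (Subtype.ext (congrArg Subtype.val h0)))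
    (fun h0 => hy (Subtype.ext (congrArg Subtype.val h0)))
  ord_add := fun {x y} hx hy hxy => v.ord_add (f := (⟨x.1, x.2⟩ : extendScalars h))
    (g := (⟨y.1, y.2⟩ : extendScalars h)) (fun h0 => hx (Subtype.ext (congrArg Subtype.val h0)))
    (fun h0 => hy (Subtype.ext (congrArg Subtype.val h0)))
    (fun h0 => hxy (Subtype.ext (congrArg Subtype.val h0)))
  ord_const := fun {c} hc => v.ord_const (c := algebraMap k M c)
    (fun h0 => hc ((algebraMap k M).injective (by rw [h0, map_zero])))
  surj := by
    obtain ⟨t, ht0, ht⟩ := v.surj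
    exact ⟨⟨t.1, t.2⟩, fun h0 => ht0 (Subtype.ext (congrArg Subtype.val h0)), ht⟩

/-- divisorial places over `M` are divisorial over `k` -/
theorem dn_div (h : M ≤ Q) (v : Place M (extendScalars h)) {m f : ℕ}
    (hm : Algebra.trdeg k M = m) (hv : IsDivisorial v f) : IsDivisorial (dn h v) (m + f) := by
  classical
  obtain ⟨y, hy⟩ := hv
  obtain ⟨t, ht⟩ := Pool.Agent.Y173.KU.Gau.exists_fin_basis m hm
  let t' : Fin m → extendScalars h := fun i => algebraMap M (extendScalars h) (t i)
  have key : ∀ q : MvPolynomial (Fin (f - 1) ⊕ Fin m) k, q ≠ 0 →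
      MvPolynomial.aeval (Sum.elim y t') q ≠ 0 ∧
        v.ord (MvPolynomial.aeval (Sum.elim y t') q) = 0 := by
    intro q hq
    rw [Pool.Agent.Y173.KU.Gau.aeval_sum y t' q]
    let φ : MvPolynomial (Fin m) k →+* M := (MvPolynomial.aeval (R := k) t : _ →ₐ[k] M)
    have hφ : Function.Injective φ := ht.1
    have h1 : ((MvPolynomial.aeval (R := k) t' : MvPolynomial (Fin m) k →ₐ[k] extendScalars h) :
        MvPolynomial (Fin m) k →+* extendScalars h) =
        (algebraMap M (extendScalars h)).comp φ := by
      refine MvPolynomial.ringHom_ext (fun c => ?_) (fun i => ?_)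
      · simp [φ]
        rfl
      · simp [φ, t']
    rw [h1, ← MvPolynomial.eval₂_map, ← MvPolynomial.aeval_def]
    refine hy _ ?_
    intro h0
    apply hq
    have h2 := (MvPolynomial.map_injective (σ := Fin (f - 1)) φ hφ) (h0.trans (map_zero _).symm)
    exact (MvPolynomial.sumAlgEquiv k (Fin (f - 1)) (Fin m)).injective (h2.trans (map_zero _).symm)
  have hcard : m + f - 1 ≤ Fintype.card (Fin (f - 1) ⊕ Fin m) := by
    rw [Fintype.card_sum, Fintype.card_fin, Fintype.card_fin]
    omega
  obtain ⟨e⟩ : Nonempty (Fin (m + f - 1) ↪ (Fin (f - 1) ⊕ Fin m)) :=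
    Function.Embedding.nonempty_of_card_le (by rwa [Fintype.card_fin])
  let ψ : extendScalars h →ₐ[k] Q :=
    { toFun := fun x => ⟨x.1, x.2⟩
      map_one' := rfl
      map_mul' := fun _ _ => rfl
      map_zero' := rfl
      map_add' := fun _ _ => rfl
      commutes' := fun _ => rfl }
  refine ⟨fun i => ψ (Sum.elim y t' (e i)), fun q hq => ?_⟩
  have h1 := key (MvPolynomial.rename e q) (fun h0 => hq
    (MvPolynomial.rename_injective e e.injective (h0.trans (map_zero _).symm)))
  rw [MvPolynomial.aeval_rename] at h1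
  have h2 : MvPolynomial.aeval (fun i => ψ (Sum.elim y t' (e i))) q =
      ψ (MvPolynomial.aeval (Sum.elim y t' ∘ e) q) := by
    rw [← MvPolynomial.comp_aeval_apply]
    rfl
  rw [h2]
  refine ⟨fun h0 => h1.1 ?_, h1.2⟩
  exact Subtype.ext (congrArg Subtype.val h0)

end

theorem main (hDIV : S_DIV) : S_CFQ := by
  intro k L _ _ _ _ _ _ M P Q _ _ m p f hMQ hDim w z E hFr N ω hω r β μ hμ hsum i
  classical
  have hP : Pool.Agent.Y173.KU.Prd Q P := prd' (by rw [sup_comm]; exact hDim.sup)
    (m := m + f) (f := p) (by rw [hDim.tL, add_comm]) hDim.tQ hDim.tP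
  refine ⟨?_, ?_, fun u hu hf => hf.elim⟩
  · intro A D
    have h2 : (Matrix.of fun a b => (∑ c, A a c • D c) (z b)) =
        A * Matrix.of fun a b => D a (z b) := by
      ext a b
      rw [Matrix.of_apply, Matrix.mul_apply]
      simp only [Matrix.of_apply]
      congr 1
      exact der_sum (L := extendScalars hMQ) _ _ _ _
    show β i * (Matrix.of fun a b => (∑ c, A a c • D c) (z b)).det ^ N = _
    rw [h2, Matrix.det_mul]
    ring
  · intro v hv _ D hD
    obtain ⟨U, hU1, hU2, hU3, hU4, hU5⟩ := Pool.Agent.Y173.KU.Gau.main k L Q P (m + f) p hP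
      hDim.tQ hDim.tP (dn hMQ v)
    have hUM : ∀ x : M, U.ord (x : L) = 0 := by
      intro x
      refine (hU1 ⟨x.1, hMQ x.2⟩).trans ?_
      show v.ord (algebraMap M (extendScalars hMQ) x) = 0
      by_cases hx : x = 0
      · rw [hx, map_zero, v.ord_zero]
      · exact v.ord_const hx
    let W : Place M L := lift U hUM
    have hWU : low W = U := rfl
    have hWd : IsDivisorial W (p + f) := by
      rw [hDIV k L M m (p + f) hDim.tM (by rw [hDim.tL]; congr 1; omega) W, hWU,
        show m + (p + f) = m + f + p by omega]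
      exact hU4 (dn_div hMQ v hDim.tM hv)
    -- the derivations of `L`
    let D' : Fin (p + f) → Derivation M L L :=
      Fin.addCases (fun l => E (Fin.castAdd f l))
        (fun l => ∑ b, ((D l (z b) : extendScalars hMQ) : L) • E (Fin.natAdd p b))
    have hD'1 : ∀ l : Fin p, D' (Fin.castAdd f l) = E (Fin.castAdd f l) :=
      fun l => Fin.addCases_left l
    have hD'2 : ∀ l : Fin f, D' (Fin.natAdd p l) =
        ∑ b, ((D l (z b) : extendScalars hMQ) : L) • E (Fin.natAdd p b) :=
      fun l => Fin.addCases_right l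
    let B : Matrix (Fin p ⊕ Fin f) (Fin p ⊕ Fin f) L :=
      Matrix.fromBlocks 1 0 0 (Matrix.of fun a b => ((D a (z b) : extendScalars hMQ) : L))
    let A : Matrix (Fin (p + f)) (Fin (p + f)) L :=
      Matrix.reindex finSumFinEquiv finSumFinEquiv B
    have hAB : ∀ a b : Fin p ⊕ Fin f, A (finSumFinEquiv a) (finSumFinEquiv b) = B a b := by
      intro a b
      simp [A]
    have hA : (fun a => ∑ c, A a c • E c) = D' := by
      funext a
      rw [← Equiv.sum_comp finSumFinEquiv (fun c => A a c • E c), Fintype.sum_sum_type]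
      obtain ⟨a', rfl⟩ := finSumFinEquiv.surjective a
      simp only [hAB]
      rcases a' with l | l
      · have e1 : D' (finSumFinEquiv (Sum.inl l)) = E (Fin.castAdd f l) := hD'1 l
        rw [e1]
        simp [B, Matrix.one_apply]
      · have e1 : D' (finSumFinEquiv (Sum.inr l)) =
            ∑ b, ((D l (z b) : extendScalars hMQ) : L) • E (Fin.natAdd p b) := hD'2 l
        rw [e1]
        simp [B]
    have hdet : A.det = (((Matrix.of fun a b => D a (z b)).det : extendScalars hMQ) : L) := by
      have h6 := (algebraMap (extendScalars hMQ) L).map_det (Matrix.of fun a b => D a (z b))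
      rw [Matrix.det_reindex_self, Matrix.det_fromBlocks_zero₂₁, Matrix.det_one, one_mul]
      refine Eq.trans ?_ h6.symm
      rfl
    have hωD : ω D' = (((Matrix.of fun a b => D a (z b)).det : extendScalars hMQ) : L) ^ N *
        ω E := by
      rw [← hdet, ← hω.1 A E, hA]
    haveI : CharZero M := charZero_of_injective_algebraMap (algebraMap k M).injective
    have hyM : ∀ (l : Fin f) (x : extendScalars hMQ), D' (Fin.natAdd p l) (x : L) =
        ((D l x : extendScalars hMQ) : L) := by
      intro l x
      refine der_comp (k := M) (K := extendScalars hMQ) (L := L) (D l) (D' (Fin.natAdd p l)) z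
        hFr.bz (fun c => ?_) x
      show D' (Fin.natAdd p l) ((z c : extendScalars hMQ) : L) =
        ((D l (z c) : extendScalars hMQ) : L)
      rw [hD'2, der_sum]
      simp only [hFr.e4]
      simp
    have hpres : ∀ a, ∀ x, W.Reg x → W.Reg (D' a x) := by
      intro a
      have hP' : Pres U ((D' a).restrictScalars k) := by
        refine Fin.addCases (fun l => ?_) (fun l => ?_) a
        · refine hU5 _ (fun x _ => ⟨0, ?_, (dn hMQ v).reg_zero⟩) (fun x => ?_)
          · show D' (Fin.castAdd f l) (x : L) = _
            rw [hD'1, hFr.e1]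
            rfl
          · obtain ⟨E', hE'⟩ := exists_dual w hFr.bw l
            refine ⟨E' x, ?_⟩
            refine der_comp (k := k) (K := P) (L := L) E'
              ((D' (Fin.castAdd f l)).restrictScalars k) w hFr.bw (fun c => ?_) x
            show D' (Fin.castAdd f l) ((w c : P) : L) = ((E' (w c) : P) : L)
            rw [hD'1, hFr.e2, hE']
            by_cases hlc : l = c
            · subst hlc
              simp
            · rw [if_neg hlc, if_neg (Ne.symm hlc)]
              rfl
        · refine hU5 _ (fun x hx => ⟨⟨(D l (⟨x.1, x.2⟩ : extendScalars hMQ)).1,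
            (D l (⟨x.1, x.2⟩ : extendScalars hMQ)).2⟩, hyM l ⟨x.1, x.2⟩, ?_⟩)
            (fun x => ⟨0, ?_⟩)
          · have h3 : v.Reg (⟨x.1, x.2⟩ : extendScalars hMQ) := by
              rcases hx with hx | hx
              · exact Or.inl (Subtype.ext (congrArg Subtype.val hx))
              · exact Or.inr hx
            rcases hD l _ h3 with h4 | h4
            · exact Or.inl (Subtype.ext (congrArg Subtype.val h4))
            · exact Or.inr h4
          · show D' (Fin.natAdd p l) (x : L) = _
            rw [hD'2, der_sum]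
            simp [hFr.e3]
      exact hP'
    have hdom := hω.2.1 W hWd (fun h => h) D' hpres
    set δ : extendScalars hMQ := (Matrix.of fun a b => D a (z b)).det with hδ
    have hexp : ω D' = ∑ i, (μ i : L) *
        (((⟨(β i * δ ^ N).1, (β i * δ ^ N).2⟩ : Q)) : L) := by
      rw [hωD, hsum, Finset.mul_sum]
      refine Finset.sum_congr rfl fun i _ => ?_
      show (δ : L) ^ N * ((β i : L) * (μ i : L)) = (μ i : L) * ((β i * δ ^ N : extendScalars hMQ) : L)
      push_cast
      ring
    have hge : Ge U 0 (ω D') := by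
      rcases hdom with h0 | ⟨s, hs, hs0, hsU⟩
      · exact Or.inl h0
      · refine Or.inr ?_
        rw [Nat.cast_zero, zero_mul] at hsU
        exact hsU
    rw [hexp] at hge
    have h9 := hU3 r μ (fun i => (⟨(β i * δ ^ N).1, (β i * δ ^ N).2⟩ : Q)) 0 hμ hge i
    show Dom v {1} 0 (β i * δ ^ N)
    rcases h9 with h9 | h9
    · left
      exact Subtype.ext (congrArg Subtype.val h9)
    · right
      refine ⟨1, Finset.mem_singleton_self _, one_ne_zero, ?_⟩
      rw [Nat.cast_zero, zero_mul]
      exact h9

end Pool.Agent.Y173.KR.Cfq
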