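import Pool.Agent.Y173.KR.Stm

/-! (KR-DIV, helper730) Divisorial places over `k` and over `M`. -/

set_option autoImplicit false

open FF IntermediateField Pool.Agent.W619.PQ

namespace Pool.Agent.Y173.KR.Div

open Pool.Agent.Y173.KR

section

variable {k M L : Type} [Field k] [Field M] [Field L] [Algebra k M] [Algebra k L] [Algebra M L]
  [IsScalarTower k M L] (w : Place M L) [Algebra k w.RF] [IsScalarTower k M w.RF]

theorem reg_aeval {N : ℕ} (y : Fin N → L) (hy : ∀ i, w.Reg (y i)) (p : MvPolynomial (Fin N) k) :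
    w.Reg (MvPolynomial.aeval y p) ∧
      w.red (MvPolynomial.aeval y p) = MvPolynomial.aeval (fun i => w.red (y i)) p := by
  induction p using MvPolynomial.induction_on with
  | C a =>
    rw [MvPolynomial.aeval_C, MvPolynomial.aeval_C, IsScalarTower.algebraMap_apply k M L,
      IsScalarTower.algebraMap_apply k M w.RF]
    exact ⟨w.reg_const _, rfl⟩
  | add p q hp hq =>
    rw [map_add, map_add]
    exact ⟨w.reg_add hp.1 hq.1, by rw [w.red_add hp.1 hq.1, hp.2, hq.2]⟩
  | mul_X p i hp =>
    rw [map_mul, map_mul, MvPolynomial.aeval_X, MvPolynomial.aeval_X]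
    exact ⟨w.reg_mul hp.1 (hy i), by rw [w.red_mul hp.1 (hy i), hp.2]⟩

theorem div_iff (N : ℕ) : (∃ y : Fin N → L, ∀ p : MvPolynomial (Fin N) k, p ≠ 0 →
    MvPolynomial.aeval y p ≠ 0 ∧ w.ord (MvPolynomial.aeval y p) = 0) ↔
      (N : Cardinal) ≤ Algebra.trdeg k w.RF := by
  constructor
  · rintro ⟨y, hy⟩
    have hreg : ∀ i, w.Reg (y i) := by
      intro i
      have h1 := hy (MvPolynomial.X i) (MvPolynomial.X_ne_zero i)
      rw [MvPolynomial.aeval_X] at h1
      exact Or.inr h1.2.ge
    have hai : AlgebraicIndependent k (fun i => w.red (y i)) := by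
      rw [algebraicIndependent_iff]
      intro p hp
      by_contra h0
      have h1 := hy p h0
      have h2 := (reg_aeval w y hreg p).2
      rw [hp] at h2
      exact w.red_ne_zero h1.1 h1.2 h2
    have h3 := hai.cardinalMk_le_trdeg
    rwa [Cardinal.mk_fin] at h3
  · intro h
    obtain ⟨ι, x, hx⟩ := exists_isTranscendenceBasis' k w.RF
    rw [← hx.cardinalMk_eq_trdeg, ← Cardinal.mk_fin, Cardinal.le_def] at h
    obtain ⟨e⟩ := h
    have hxe := hx.1.comp e e.injective
    choose y hy1 hy2 using fun i => w.red_surjective (x (e i))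
    refine ⟨y, fun p hp => ?_⟩
    obtain ⟨h1, h2⟩ := reg_aeval w y hy1 p
    have h3 : MvPolynomial.aeval (fun i => w.red (y i)) p ≠ 0 := by
      intro h4
      apply hp
      have h5 : (fun i => w.red (y i)) = x ∘ e := funext fun i => hy2 i
      rw [h5] at h4
      exact (algebraicIndependent_iff.1 hxe) p h4
    rw [← h2, Ne, w.red_eq_zero_iff h1] at h3
    push Not at h3
    refine ⟨h3.1, le_antisymm h3.2 ?_⟩
    exact (w.reg_iff h3.1).1 h1

end

theorem main : S_DIV := by
  intro k L _ _ _ _ M d n hM hL w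
  let _ : Algebra k w.RF := ((algebraMap M w.RF).comp (algebraMap k M)).toAlgebra
  have _ : IsScalarTower k M w.RF := IsScalarTower.of_algebraMap_eq' rfl
  have h1 := div_iff (k := M) (M := M) w (n - 1)
  have h2 := div_iff (k := k) (M := M) w (d + n - 1)
  have e1 : IsDivisorial w n ↔ ((n - 1 : ℕ) : Cardinal) ≤ Algebra.trdeg M w.RF := h1
  have e2 : IsDivisorial (low w) (d + n) ↔ ((d + n - 1 : ℕ) : Cardinal) ≤ Algebra.trdeg k w.RF := h2
  rw [e1, e2]
  have h3 := trdeg_add_eq k M (A := w.RF)
  have h4 := trdeg_add_eq k M (A := L)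
  rw [hM] at h3 h4
  rw [hL] at h4
  have hn : n ≠ 0 := by
    intro h0
    subst h0
    have h5 : Algebra.trdeg M L = 0 := by
      have h6 : (d : Cardinal) + Algebra.trdeg M L ≤ d + 0 := by
        rw [h4, add_zero, add_zero]
      rw [add_comm, add_comm (d : Cardinal) 0] at h6
      exact le_antisymm ((Cardinal.add_le_add_iff_of_lt_aleph0 Cardinal.natCast_lt_aleph0).1 h6) bot_le
    rw [trdeg_eq_zero_iff] at h5
    obtain ⟨t, ht0, ht⟩ := w.surj
    exact w.transcendental_of_ord_ne (f := t) (by omega) (h5.isAlgebraic t)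
  rw [← h3, show d + n - 1 = d + (n - 1) by omega, Nat.cast_add, add_comm (d : Cardinal), add_comm (d : Cardinal)]
  exact (Cardinal.add_le_add_iff_of_lt_aleph0 Cardinal.natCast_lt_aleph0).symm

end Pool.Agent.Y173.KR.Div
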