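import Pool.Agent.Y173.KR.Up

/-! Subadditivity of the Kodaira dimension for fibrations whose fibres are quotients of products. -/

set_option autoImplicit false
set_option linter.overlappingInstances false
set_option linter.unusedSectionVars false

open FF IntermediateField Pool.Agent.W619.PQ Pool.Agent.W619.PL Pool.Agent.W619.TW
  Pool.Agent.W603.LV Pool.Agent.W619.Y Pool.Agent.W308.PG.YLOC Pool.Agent.Y173.QA
  Pool.Agent.Y173.QM Algebra

namespace Pool.Agent.Y173.KR

section

variable {k L : Type} [Field k] [Field L] [Algebra k L]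

theorem kod_le_dim {K : Type} [Field K] [Algebra k K] {n h : ℕ} (hn : Algebra.trdeg k K = n)
    (hk : KodTr k K n h) : h ≤ n := by
  obtain ⟨m, hm, ω, hω, D, hD, hi⟩ := hk
  have h1 := hi.cardinalMk_le_trdeg
  rw [hn, Cardinal.mk_fin] at h1
  exact_mod_cast h1

theorem fin_adjoin {K : Type} [Field K] [Algebra k K] [Algebra K L] [IsScalarTower k K L] {n : ℕ}
    [Algebra.EssFiniteType k L] [FiniteDimensional K L] (y : Fin n → K)
    (hy : IsTranscendenceBasis k y) :
    FiniteDimensional (IntermediateField.adjoin k (Set.range y)) K := by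
  set K0 := IntermediateField.adjoin k (Set.range y) with hK0
  let iA : Algebra K0 L := inferInstance
  have t1 : IsScalarTower K0 K L := inferInstance
  have t2 : IsScalarTower k K0 L := inferInstance
  have hess : Algebra.EssFiniteType K0 L := Algebra.EssFiniteType.of_comp k K0 L
  have halg1 : Algebra.IsAlgebraic K0 K := hy.isAlgebraic_field
  have halg2 : Algebra.IsAlgebraic K0 L := Algebra.IsAlgebraic.trans K0 K L
  obtain ⟨s, hs⟩ := IntermediateField.fg_top K0 L
  have h1 : FiniteDimensional K0 (IntermediateField.adjoin K0 (s : Set L)) :=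
    IntermediateField.finiteDimensional_adjoin fun x _ =>
      (halg2.isAlgebraic x).isIntegral
  rw [hs] at h1
  have h2 : FiniteDimensional K0 L := h1.equiv IntermediateField.topEquiv.toLinearEquiv
  exact Module.Finite.of_injective (IsScalarTower.toAlgHom K0 K L).toLinearMap
    (algebraMap K L).injective

variable [CharZero k] [IsAlgClosed k] [Algebra.EssFiniteType k L] {M P Q : IntermediateField k L}

/-- the generic fibre of the quotient and of the product -/
theorem kod_fib {m p f : ℕ} (hM : Algebra.trdeg k M = m)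
    (hn : Algebra.trdeg k L = (m + p + f : ℕ))
    (G : Subgroup (L ≃ₐ[k] L)) [Finite G] (hG : M ≤ fixedField G) {h : ℕ}
    (hk : KodTr M (extendScalars hG) (p + f) h) : KodTr M L (p + f) h := by
  have hfinL : FiniteDimensional (fixedField G) L := by
    have hGal : IsGaloisGroup G (fixedField G) L := isGaloisGroup_fixed G
    exact IsGaloisGroup.finiteDimensional G (fixedField G) L
  have hfinL' : FiniteDimensional (extendScalars hG) L := hfinL
  have hK : Algebra.trdeg k (fixedField G) = (m + p + f : ℕ) := by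
    rw [← hn, ← trdeg_add_eq k (fixedField G) (A := L),
      trdeg_eq_zero (R := fixedField G) (A := L), add_zero]
  have hK' : Algebra.trdeg M (extendScalars hG) = (p + f : ℕ) := by
    have h1 : Algebra.trdeg k (extendScalars hG) = (m + (p + f) : ℕ) := by
      rw [← Nat.add_assoc]
      exact hK
    exact trdeg_rel (k := k) M hM h1
  have hess : Algebra.EssFiniteType M L := Algebra.EssFiniteType.of_comp k M L
  exact kod_up hK' (fun y hy => fin_adjoin (L := L) y hy) hk

/-- **The main theorem.** -/
theorem kr_main (hSEC : S_SEC) (hCFP : S_CFP) (hCFQ : S_CFQ) (hTEN : S_TEN)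
    [Algebra.EssFiniteType k M] [Algebra.EssFiniteType k P]
    [Algebra.EssFiniteType k Q] {m p f : ℕ} (hMQ : M ≤ Q) (hdim : Dim M P Q m p f)
    (G : Subgroup (L ≃ₐ[k] L)) [Finite G] (hG : M ≤ fixedField G)
    (V : Submodule k (Derivation k L L →ₗ[L] L))
    (hreg : ∀ θ ∈ V, IsRegForm (m + p + f) θ) (hcl : ∀ θ ∈ V, IsClosedForm θ)
    (hstab : ∀ g ∈ G, ∀ θ ∈ V, ∃ θ' ∈ V, IsImage g θ θ')
    (hgen : ∃ θ : Fin f → Derivation k L L →ₗ[L] L, (∀ i, θ i ∈ V) ∧
      IndepOver (m := m + p) (M ⊔ P) θ)
    (hRT : ReidTaiFib m p f G M P V) :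
    ∃ b : ℕ, b + Module.finrank k (constFieldsOver (M ⊔ P) V) = f ∧
      (∀ h h', KodTr k M m h → KodTr k P p h' →
        KodTr k (fixedField G) (m + p + f) (h + h' + b)) ∧
      (∀ h', KodTr M (extendScalars hG) (p + f) h' →
        ∃ a c, h' ≤ a + c ∧ KodTr k P p a ∧ KodTr M (extendScalars hMQ) f c) ∧
      ((constFieldsOver (M ⊔ P) V = ⊥ ∨ ∀ c, KodTr M (extendScalars hMQ) f c → c ≤ b) →
        ∀ h h', KodTr k M m h → KodTr M (extendScalars hG) (p + f) h' →
          KodTr k (fixedField G) (m + p + f) (h + h')) := by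
  have hn : Algebra.trdeg k L = (m + p + f : ℕ) := by
    rw [hdim.tL]
    congr 1
    omega
  have hprd := Pool.Agent.Y173.KU.prd_of_trdeg hdim.sup hdim.tL hdim.tP hdim.tQ
  obtain ⟨b, hb, hlow⟩ := lowKR hn M P (hprd.ld.of_le_right hMQ) hdim.tM hdim.tP G hG V hreg hcl
    hstab hgen hRT
  have hup : ∀ h', KodTr M (extendScalars hG) (p + f) h' →
        ∃ a c, h' ≤ a + c ∧ KodTr k P p a ∧ KodTr M (extendScalars hMQ) f c := fun h' hk =>
    upKR hSEC hCFP hCFQ hTEN hMQ hdim (kod_fib hdim.tM hn G hG hk)
  refine ⟨b, hb, hlow, hup, fun hA h h' hk hk' => ?_⟩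
  obtain ⟨a, c, hac, ha, hc⟩ := hup h' hk'
  have hcb : c ≤ b := by
    rcases hA with hA | hA
    · rw [hA, finrank_bot, add_zero] at hb
      rw [hb]
      have hQ' : Algebra.trdeg M (extendScalars hMQ) = f := by
        have h1 : Algebra.trdeg k (extendScalars hMQ) = (m + f : ℕ) := hdim.tQ
        exact trdeg_rel (k := k) M hdim.tM h1
      exact kod_le_dim hQ' hc
    · exact hA c hc
  exact kod_mono (by omega) (hlow h a hk ha)

end

end Pool.Agent.Y173.KR
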