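import Pool.Agent.Y173.KU.Main

/-! Relative pluricanonical forms on the product of a variety over `k` and a variety over `M`:
definitions and statements of the parts. -/

set_option autoImplicit false
set_option linter.overlappingInstances false
set_option linter.unusedSectionVars false

open FF IntermediateField Pool.Agent.W619.PQ Pool.Agent.W619.PL Pool.Agent.W619.TW
  Pool.Agent.W603.LV Pool.Agent.W619.Y

namespace Pool.Agent.Y173.KR

section

variable {k L : Type} [Field k] [Field L] [Algebra k L] {M : IntermediateField k L}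

/-- A place which is trivial on `M`, as a place over `M`. -/
def lift (u : Place k L) (h : ∀ x : M, u.ord (x : L) = 0) : Place M L where
  ord := u.ord
  ord_zero := u.ord_zero
  ord_mul := u.ord_mul
  ord_add := u.ord_add
  ord_const := fun {c} _ => h c
  surj := u.surj

/-- A place over `M`, as a place over `k`. -/
def low (w : Place M L) : Place k L where
  ord := w.ord
  ord_zero := w.ord_zero
  ord_mul := w.ord_mul
  ord_add := w.ord_add
  ord_const := fun {c} hc => by
    rw [IsScalarTower.algebraMap_apply k M L]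
    exact w.ord_const (by simpa using hc)
  surj := w.surj

/-- The function field `L` is the compositum of `P` over `k` and of `Q` over `M`, with the
dimensions `p` and `f`, and `m` is the dimension of `M`. -/
structure Dim (M P Q : IntermediateField k L) (m p f : ℕ) : Prop where
  sup : P ⊔ Q = ⊤
  tM : Algebra.trdeg k M = m
  tP : Algebra.trdeg k P = p
  tQ : Algebra.trdeg k Q = (m + f : ℕ)
  tL : Algebra.trdeg k L = (p + (m + f) : ℕ)

/-- The derivations `E` over `M` are dual to the transcendence bases `w` of `P` over `k` and `z` of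
`Q` over `M`. -/
structure Fr (M P Q : IntermediateField k L) (h : M ≤ Q) {p f : ℕ} (w : Fin p → P)
    (z : Fin f → extendScalars h) (E : Fin (p + f) → Derivation M L L) : Prop where
  bw : IsTranscendenceBasis k w
  bz : IsTranscendenceBasis M z
  e1 : ∀ (l : Fin p) (β : Q), E (Fin.castAdd f l) (β : L) = 0
  e2 : ∀ l j : Fin p, E (Fin.castAdd f l) (w j : L) = if l = j then 1 else 0
  e3 : ∀ (l : Fin f) (μ : P), E (Fin.natAdd p l) (μ : L) = 0
  e4 : ∀ l j : Fin f, E (Fin.natAdd p l) (z j : L) = if l = j then 1 else 0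

end

/-- (KR-DIV) Divisorial places over `k` and over `M`. -/
def S_DIV : Prop := ∀ (k L : Type) [Field k] [CharZero k] [Field L] [Algebra k L]
  (M : IntermediateField k L) (d n : ℕ), Algebra.trdeg k M = d →
    Algebra.trdeg k L = (d + n : ℕ) → ∀ w : Place M L, IsDivisorial w n ↔
      IsDivisorial (low w) (d + n)

/-- (KR-SEC) The relative pluricanonical forms have coefficients in the ring generated by `P` and
`Q`. -/
def S_SEC : Prop := ∀ (k L : Type) [Field k] [CharZero k] [IsAlgClosed k] [Field L] [Algebra k L]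
  [Algebra.EssFiniteType k L] (M P Q : IntermediateField k L) [Algebra.EssFiniteType k P]
  [Algebra.EssFiniteType k Q] (m p f : ℕ) (hMQ : M ≤ Q), Dim M P Q m p f →
    ∀ (w : Fin p → P) (z : Fin f → extendScalars hMQ) (E : Fin (p + f) → Derivation M L L),
      Fr M P Q hMQ w z E → ∀ (N : ℕ) (ω : (Fin (p + f) → Derivation M L L) → L),
        IsSec M L (p + f) (fun _ => False) {1} N 0 ω → ω E ∈ RR P Q

/-- (KR-CFP) The coefficients in `P`. -/
def S_CFP : Prop := ∀ (k L : Type) [Field k] [CharZero k] [IsAlgClosed k] [Field L] [Algebra k L]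
  [Algebra.EssFiniteType k L] (M P Q : IntermediateField k L) [Algebra.EssFiniteType k P]
  [Algebra.EssFiniteType k Q] (m p f : ℕ) (hMQ : M ≤ Q), Dim M P Q m p f →
    ∀ (w : Fin p → P) (z : Fin f → extendScalars hMQ) (E : Fin (p + f) → Derivation M L L),
      Fr M P Q hMQ w z E → ∀ (N : ℕ) (ω : (Fin (p + f) → Derivation M L L) → L),
        IsSec M L (p + f) (fun _ => False) {1} N 0 ω →
        ∀ (r : ℕ) (β : Fin r → Q) (μ : Fin r → P), LinearIndependent k β →
          ω E = ∑ i, (β i : L) * (μ i : L) →
          ∀ i, IsSec k P p (fun _ => False) {1} N 0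
            (fun D => μ i * (Matrix.of fun a b => D a (w b)).det ^ N)

/-- (KR-CFQ) The coefficients in `Q`. -/
def S_CFQ : Prop := ∀ (k L : Type) [Field k] [CharZero k] [IsAlgClosed k] [Field L] [Algebra k L]
  [Algebra.EssFiniteType k L] (M P Q : IntermediateField k L) [Algebra.EssFiniteType k P]
  [Algebra.EssFiniteType k Q] (m p f : ℕ) (hMQ : M ≤ Q), Dim M P Q m p f →
    ∀ (w : Fin p → P) (z : Fin f → extendScalars hMQ) (E : Fin (p + f) → Derivation M L L),
      Fr M P Q hMQ w z E → ∀ (N : ℕ) (ω : (Fin (p + f) → Derivation M L L) → L),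
        IsSec M L (p + f) (fun _ => False) {1} N 0 ω →
        ∀ (r : ℕ) (β : Fin r → extendScalars hMQ) (μ : Fin r → P), LinearIndependent k μ →
          ω E = ∑ i, (β i : L) * (μ i : L) →
          ∀ i, IsSec M (extendScalars hMQ) f (fun _ => False) {1} N 0
            (fun D => β i * (Matrix.of fun a b => D a (z b)).det ^ N)

/-- (KR-TEN) Algebraically independent ratios of sums of products. -/
def S_TEN : Prop := ∀ (k L : Type) [Field k] [Field L] [Algebra k L]
  (M P Q : IntermediateField k L) (hMQ : M ≤ Q) (A : Set P) (B : Set (extendScalars hMQ))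
  (h : ℕ) (x : Fin (h + 1) → L), (∀ l, x l ≠ 0) →
    AlgebraicIndependent M (fun l : Fin h => x l.succ / x 0) →
    (∀ l, ∃ (r : ℕ) (β : Fin r → extendScalars hMQ) (μ : Fin r → P),
      (∀ i, β i ∈ B ∧ β i ≠ 0 ∧ μ i ∈ A ∧ μ i ≠ 0) ∧ x l = ∑ i, (β i : L) * (μ i : L)) →
    ∃ (a b : ℕ) (μ : Fin (a + 1) → P) (β : Fin (b + 1) → extendScalars hMQ), h ≤ a + b ∧
      (∀ i, μ i ∈ A ∧ μ i ≠ 0) ∧ (∀ i, β i ∈ B ∧ β i ≠ 0) ∧
      AlgebraicIndependent k (fun l : Fin a => μ l.succ / μ 0) ∧
      AlgebraicIndependent M (fun l : Fin b => β l.succ / β 0)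

end Pool.Agent.Y173.KR
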