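import Pool.Agent.Y173.QM.Kod
import Pool.Agent.Y173.KR.Stm

/-! Local estimates for relative forms over a base of product type. -/

set_option autoImplicit false
set_option linter.overlappingInstances false
set_option linter.unusedSectionVars false

universe u v

open FF IntermediateField Pool.Agent.W619.PQ Pool.Agent.W619.PL Pool.Agent.W619.TW
  Pool.Agent.W603.LV Pool.Agent.W619.Y Pool.Agent.W308.PG.YLOC Pool.Agent.Y173.QA
  Pool.Agent.Y173.QM

namespace Pool.Agent.Y173.KR

section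

variable {k : Type v} {L : Type u} [Field k] [CharZero k] [Field L] [Algebra k L]

/-- The `m0`-form `a (dy) ^ m0` on the base is `a' (dz) ^ m0` with `a'` and the coordinates `z`
regular at `w`, the orders of the coordinates are at least `bl`, with sum `c`, and `c + ∑ a i ≥ e` for
the eigenvalues `ζ ^ a i` of `h` on independent eigenforms in `V`. -/
def GGood (M : IntermediateField k L) (V : Submodule k (Derivation k L L →ₗ[L] L)) {m : ℕ}
    (f m0 : ℕ) (w : Place k L) (e : ℕ) (h : L ≃ₐ[k] L) (ζ : k) (y : Fin m → L) (a : L) : Prop :=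
  ∃ (Z : Matrix (Fin m) (Fin m) L) (z : Fin m → L) (c : ℕ) (bl : Fin m → ℤ), (∀ l, z l ∈ M) ∧
    (∀ l, w.Reg (z l)) ∧ (∀ (D : Derivation k L L) l, D (y l) = ∑ c, Z l c * D (z c)) ∧
    Ge w 0 (a * Z.det ^ m0) ∧ (∀ l, Ge w (bl l) (z l)) ∧ ∑ l, bl l = c ∧
    (2 ≤ e → (∀ z, w.Reg z → h z - z = 0 ∨ 1 ≤ w.ord (h z - z)) →
      ∀ (θ : Fin f → Derivation k L L →ₗ[L] L) (a : Fin f → ℕ),
      (∀ i, θ i ∈ V ∧ a i < e ∧ IsImage h (θ i) (ζ ^ a i • θ i)) →
      IndepOver (m := m) M θ → e ≤ c + ∑ i, a i)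

/-- **The local estimate at a ramified divisor.** -/
theorem rt_gen {m f : ℕ} {G : Subgroup (L ≃ₐ[k] L)} {M : IntermediateField k L}
    {V : Submodule k (Derivation k L L →ₗ[L] L)}
    (hreg : ∀ θ ∈ V, IsRegForm (m + f) θ)
    (hstab : ∀ g ∈ G, ∀ θ ∈ V, ∃ θ' ∈ V, IsImage g θ θ')
    (w : Place k L) (hw : IsDivisorial w (m + f))
    (h : L ≃ₐ[k] L) (hG : h ∈ G)
    {e : ℕ} (he : orderOf h = e) (he2 : 2 ≤ e) {ζ : k} (hζ : IsPrimitiveRoot ζ e)
    (hrot : ∀ z : L, z ≠ 0 → Ge w (w.ord z + 1) (h z - algebraMap k L (ζ ^ (w.ord z)) * z))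
    {z : Fin m → L} (hzM : ∀ l, z l ∈ M) {c : ℕ}
    (hRT : (∀ z, w.Reg z → h z - z = 0 ∨ 1 ≤ w.ord (h z - z)) →
      ∀ (θ : Fin f → Derivation k L L →ₗ[L] L) (a : Fin f → ℕ),
      (∀ i, θ i ∈ V ∧ a i < e ∧ IsImage h (θ i) (ζ ^ a i • θ i)) →
      IndepOver (m := m) M θ → e ≤ c + ∑ i, a i) {bl : Fin m → ℤ}
    (hbl : ∀ l, Ge w (bl l) (z l)) (hblc : ∑ l, bl l = c)
    (θ : Fin f → Derivation k L L →ₗ[L] L) (hθ : ∀ i, θ i ∈ V)
    (E : Fin (m + f) → Derivation k L L) (hE : ∀ j z, w.Reg (E j z / z))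
    (hEh : ∀ j z, h (E j z) = E j (h z)) :
    Ge w e (eta (fam z θ) E) := by
  classical
  have hact : ∀ θ ∈ V, act h θ ∈ V := by
    intro θ hθ
    obtain ⟨θ', h1, h2⟩ := hstab h hG θ hθ
    rw [isImage_iff] at h2
    rwa [← h2]
  have hT : ∀ x, ((act h) ^ e) x = x := by
    intro x
    rw [act_pow, ← he, pow_orderOf_eq_one]
    have := act_pow (1 : L ≃ₐ[k] L) 0 x
    rw [pow_zero, pow_zero, Module.End.one_apply] at this
    exact this.symm
  have hfix : ∀ z, w.Reg z → h z - z = 0 ∨ 1 ≤ w.ord (h z - z) := by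
    intro z hz
    by_cases hz0 : z = 0
    · left; rw [hz0, map_zero, sub_zero]
    have hz' : 0 ≤ w.ord z := hz.resolve_left hz0
    have h1 : Ge w 1 (h z - algebraMap k L (ζ ^ (w.ord z)) * z) :=
      (hrot z hz0).mono (by omega)
    have h2 : Ge w 1 (algebraMap k L (ζ ^ (w.ord z)) * z - z) := by
      rcases hz'.eq_or_lt with h3 | h3
      · rw [← h3, zpow_zero, map_one, one_mul, sub_self]
        exact Ge.zero
      · have h4 : Ge w 1 z := Or.inr (by omega)
        have h5 := (Ge.const (P := w) (ζ ^ (w.ord z))).mul h4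
        rw [zero_add] at h5
        exact h5.sub h4
    have h3 := h1.add h2
    rw [sub_add_sub_cancel] at h3
    exact h3
  have hPres : ∀ j, ∀ f, w.Reg f → w.Reg (E j f) := by
    intro j f hf
    by_cases hf0 : f = 0
    · rw [hf0, map_zero]; exact w.reg_zero
    · have h1 := w.reg_mul (hE j f) hf
      rwa [div_mul_cancel₀ _ hf0] at h1
  choose cc hcV hcT hcs using fun i => eig_decomp (by omega : 0 < e) hζ (act h) hT V hact (θ i) (hθ i)
  have he0 : 0 < e := by omega
  -- the decomposition of all the forms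
  let z0 : Fin e := ⟨0, he0⟩
  let C : Fin (m + f) → Fin e → (Derivation k L L →ₗ[L] L) := fun i a =>
    Fin.addCases (motive := fun _ => Derivation k L L →ₗ[L] L)
      (fun l => if a = z0 then dform (z l) else 0) (fun l => cc l a) i
  have hCl : ∀ (l : Fin m) a, C (Fin.castAdd f l) a = if a = z0 then dform (z l) else 0 := by
    intro l a
    simp only [C, Fin.addCases_left]
  have hCr : ∀ (l : Fin f) a, C (Fin.natAdd m l) a = cc l a := by
    intro l a
    simp only [C, Fin.addCases_right]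
  have hCs : ∀ i, ∑ a, C i a = fam z θ i := by
    intro i
    refine Fin.addCases (fun l => ?_) (fun l => ?_) i
    · simp only [hCl]
      rw [Finset.sum_ite_eq' Finset.univ z0 (fun _ => dform (z l)), if_pos (Finset.mem_univ _),
        fam_left]
    · simp only [hCr]
      rw [hcs, fam_right]
  have hM : (Matrix.of fun i j => fam z θ i (E j)) = Matrix.of fun i j => (∑ a, C i a (E j)) := by
    ext i j
    rw [Matrix.of_apply, Matrix.of_apply]
    conv_lhs => rw [← hCs i]
    rw [LinearMap.sum_apply]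
  have hdet : (Matrix.of fun i j => (∑ a, C i a (E j))).det =
      ∑ r : Fin (m + f) → Fin e, (Matrix.of fun i j => C i (r i) (E j)).det := by
    have h1 := (Matrix.detRowAlternating (R := L) (n := Fin (m + f))).toMultilinearMap.map_sum
      (fun (i : Fin (m + f)) (a : Fin e) => (fun j => C i a (E j)))
    have h2 : (fun i => ∑ a : Fin e, (fun j => C i a (E j))) =
        Matrix.of fun i j => (∑ a, C i a (E j)) := by
      ext i j
      rw [Finset.sum_apply, Matrix.of_apply]
    rw [h2] at h1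
    exact h1
  unfold eta
  rw [hM, hdet]
  refine Ge.sum _ _ fun r _ => ?_
  by_cases h0 : (Matrix.of fun i j => C i (r i) (E j)).det = 0
  · rw [h0]; exact Ge.zero
  have hr0 : ∀ l : Fin m, r (Fin.castAdd f l) = z0 := by
    intro l
    by_contra hne
    apply h0
    apply Matrix.det_eq_zero_of_row_eq_zero (Fin.castAdd f l)
    intro j
    rw [Matrix.of_apply, hCl, if_neg hne]
    rfl
  have hfam : (fun i => C i (r i)) = fam z (fun i => cc i (r (Fin.natAdd m i))) := by
    funext i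
    refine Fin.addCases (fun l => ?_) (fun l => ?_) i
    · rw [hCl, hr0, if_pos rfl, fam_left]
    · rw [hCr, fam_right]
  have hne : eta (fam z (fun i => cc i (r (Fin.natAdd m i)))) E ≠ 0 := by
    rw [← hfam]
    exact h0
  have h1 := hRT hfix
    (fun i => cc i (r (Fin.natAdd m i))) (fun i => (r (Fin.natAdd m i) : ℕ))
    (fun i => ⟨hcV i _, (r _).2, ?_⟩) ((indep_iff M _).2 ⟨z, E, hzM, hne⟩)
  · let bd : Fin (m + f) → ℤ := Fin.append bl (fun i => ((r (Fin.natAdd m i) : ℕ) : ℤ))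
    have hsum : ∑ i, bd i = c + ∑ i, ((r (Fin.natAdd m i) : ℕ) : ℤ) := by
      rw [Fin.sum_univ_add]
      simp only [bd, Fin.append_left, Fin.append_right]
      rw [hblc]
    have h2 : Ge w (∑ i, bd i) (Matrix.of fun i j => C i (r i) (E j)).det := by
      refine ge_det_row w _ _ fun i j => ?_
      rw [Matrix.of_apply]
      refine Fin.addCases (fun l => ?_) (fun l => ?_) i
      · rw [hCl, hr0, if_pos rfl, dform_apply]
        simp only [bd, Fin.append_left]
        by_cases hz0 : z l = 0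
        · rw [hz0, map_zero]; exact Ge.zero
        have h3 : Ge w 0 (E j (z l) / z l) := hE j (z l)
        have h4 := h3.mul (hbl l)
        rwa [zero_add, div_mul_cancel₀ _ hz0] at h4
      · rw [hCr]
        simp only [bd, Fin.append_right]
        refine eig_ord hζ w h hrot (r _).2 (hreg _ (hcV l _) w hw (E j) (hPres j)) ?_
        have h3 := act_comm h (cc l (r (Fin.natAdd m l))) (E j) (hEh j)
        rw [← h3, hcT]
        rfl
    refine h2.mono ?_
    rw [hsum]
    exact_mod_cast h1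
  · rw [isImage_iff, hcT]

/-- **The estimate for the sections.** -/
theorem est_gen {m f m0 : ℕ} (G : Subgroup (L ≃ₐ[k] L)) [Finite G] {M : IntermediateField k L}
    {V : Submodule k (Derivation k L L →ₗ[L] L)}
    (htr : Algebra.trdeg k L = (m + f : ℕ))
    (hreg : ∀ θ ∈ V, IsRegForm (m + f) θ)
    (hstab : ∀ g ∈ G, ∀ θ ∈ V, ∃ θ' ∈ V, IsImage g θ θ')
    {v : Place k (fixedField G)} {w : Place k L} {e : ℕ} (hwv : Over w v e)
    (hw : IsDivisorial w (m + f)) {h : G} {ζ : k} (hord : orderOf (h : L ≃ₐ[k] L) = e)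
    (hζ : IsPrimitiveRoot ζ e) (hrot : Rot w (h : L ≃ₐ[k] L) ζ)
    {y : Fin m → L} {a : L} (hgood : GGood M V f m0 w e (h : L ≃ₐ[k] L) ζ y a)
    {θ : Fin f → Derivation k L L →ₗ[L] L} (hθ : ∀ i, θ i ∈ V)
    {D : Fin (m + f) → Derivation k (fixedField G) (fixedField G)}
    {D' : Fin (m + f) → Derivation k L L} (hD : ∀ j, Pres v (D j))
    (hDD : ∀ j (f : fixedField G), D' j (f : L) = (D j f : L)) :
    Ge w 0 (a * eta (fam y θ) D' ^ m0) := by
  obtain ⟨Z, z, c, bl, hzM, hzr, hyz, hdet, hbl, hblc, hc⟩ := hgood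
  have hpl := pluri_smul (pluri_pow (eta_pluri (fam y θ)) m0) a
  rw [one_mul] at hpl
  have hval : ∀ E' : Fin (m + f) → Derivation k L L, a * eta (fam y θ) E' ^ m0 =
      (a * Z.det ^ m0) * eta (fam z θ) E' ^ m0 := by
    intro E'
    rw [eta_base Z hyz, mul_pow, mul_assoc]
  refine core G htr hwv h hpl 0 ?_ ?_ D D' hD hDD
  · intro he2 E' hlog hcomm
    rw [hval]
    have h2 : Ge w e (eta (fam z θ) E') :=
      rt_gen hreg hstab w hw h h.2 hord he2 hζ hrot hzM (hc he2) hbl hblc θ hθ E' hlog hcomm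
    have h3 := hdet.mul (h2.pow m0)
    exact h3
  · intro _ E' hE'
    rw [hval]
    have h2 : Ge w 0 (eta (fam z θ) E') := by
      refine Pool.Agent.W619.PQ.ge_det w _ fun i j => ?_
      rw [Matrix.of_apply]
      refine Fin.addCases (fun l => ?_) (fun l => ?_) i
      · rw [fam_left, dform_apply]
        exact hE' j _ (hzr l)
      · rw [fam_right]
        exact hreg _ (hθ l) w hw (E' j) (hE' j)
    have h3 := hdet.mul (h2.pow m0)
    simpa using h3

end

variable {k : Type} [Field k] [CharZero k] {L : Type} [Field L] [Algebra k L]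

theorem kodGen [IsAlgClosed k] (G : Subgroup (L ≃ₐ[k] L)) [Finite G] (M : IntermediateField k L)
    (V : Submodule k (Derivation k L L →ₗ[L] L)) {m f : ℕ}
    (htr : Algebra.trdeg k L = (m + f : ℕ))
    (hreg : ∀ θ ∈ V, IsRegForm (m + f) θ)
    (hstab : ∀ g ∈ G, ∀ θ ∈ V, ∃ θ' ∈ V, IsImage g θ θ')
    {y : Fin m → M} (hy : IsTranscendenceBasis k y)
    {θ : Fin f → Derivation k L L →ₗ[L] L} (hθ : ∀ i, θ i ∈ V)
    {P : Fin (m + f) → Derivation k L L}
    (hP1 : ∀ i j, fam (fun l => (y l : L)) θ i (P j) = if i = j then 1 else 0)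
    {b : ℕ} {t : Fin b → L} (ht : AlgebraicIndependent k (Sum.elim (fun l => (y l : L)) t))
    (htS : ∀ j, ∃ τ ∈ V, ∃ i : Fin f, t j = τ (P (Fin.natAdd m i)))
    {h m0 : ℕ} (hm0 : 1 ≤ m0) (c : Fin (h + 1) → M) (hE0 : ∀ l, c l ≠ 0)
    (hsi : AlgebraicIndependent k (fun l : Fin h => c l.succ / c 0))
    (hgood : ∀ l, ∀ (v : Place k (fixedField G)) (w : Place k L) (e : ℕ), Over w v e →
      IsDivisorial w (m + f) → ∀ (h : G) (ζ : k), orderOf (h : L ≃ₐ[k] L) = e →
      IsPrimitiveRoot ζ e → Rot w (h : L ≃ₐ[k] L) ζ →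
      GGood M V f m0 w e (h : L ≃ₐ[k] L) ζ (fun l => (y l : L)) ((c l : M) : L)) :
    KodTr k (fixedField G) (m + f) (h + b) := by
  classical
  choose τ hτ i hi using htS
  obtain ⟨a, ha⟩ : ∃ a : Fin (h + b + 1) → Fin (h + 1), a =
    Fin.cons 0 (Fin.append (fun l : Fin h => l.succ) (fun _ : Fin b => 0)) := ⟨_, rfl⟩
  obtain ⟨Ψ, hΨ⟩ : ∃ Ψ : Fin (h + b + 1) → (Fin f → Derivation k L L →ₗ[L] L), Ψ =
    Fin.cons θ (Fin.append (fun _ : Fin h => θ)
      (fun j : Fin b => Function.update θ (i j) (τ j))) := ⟨_, rfl⟩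
  have hΨV : ∀ l j, Ψ l j ∈ V := by
    intro l
    rw [hΨ]
    refine Fin.cases (fun j => hθ j) (fun l j => ?_) l
    rw [Fin.cons_succ]
    refine Fin.addCases (fun l => ?_) (fun l => ?_) l
    · rw [Fin.append_left]
      exact hθ j
    · rw [Fin.append_right]
      by_cases hj : j = i l
      · subst hj
        rw [Function.update_self]
        exact hτ l
      · rw [Function.update_of_ne hj]
        exact hθ j
  have hη : eta (fam (fun l => (y l : L)) θ) P = 1 := by
    unfold eta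
    have h1 : (Matrix.of fun i j => fam (fun l => (y l : L)) θ i (P j)) = 1 := by
      ext i j
      rw [Matrix.of_apply, hP1, Matrix.one_apply]
    rw [h1, Matrix.det_one]
  obtain ⟨Ω, hΩ⟩ : ∃ Ω : Fin (h + b + 1) → (Fin (m + f) → Derivation k L L) → L, Ω =
    fun l D => ((c (a l) : M) : L) * eta (fam (fun l => (y l : L)) (Ψ l)) D ^ m0 := ⟨_, rfl⟩
  have hΩ0 : Ω 0 P = ((c 0 : M) : L) := by
    rw [hΩ, ha, hΨ]
    simp only [Fin.cons_zero]
    rw [hη, one_pow, mul_one]
  have hΩl : ∀ l : Fin h, Ω (Fin.castAdd b l).succ P = ((c l.succ : M) : L) := by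
    intro l
    rw [hΩ, ha, hΨ]
    simp only [Fin.cons_succ, Fin.append_left]
    rw [hη, one_pow, mul_one]
  have hΩr : ∀ l : Fin b, Ω (Fin.natAdd h l).succ P = ((c 0 : M) : L) * t l ^ m0 := by
    intro l
    rw [hΩ, ha, hΨ]
    simp only [Fin.cons_succ, Fin.append_right]
    rw [fam_update, eta_update hP1, hi]
  have hc0 : ∀ l, ((c l : M) : L) ≠ 0 := fun l h1 => hE0 l (Subtype.ext h1)
  have htM : AlgebraicIndependent M t := indep_over M hy ht
  refine kod_descent G htr hm0 Ω ?_ ?_ P ?_ ?_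
  · intro l
    have h1 := pluri_smul (pluri_pow (eta_pluri (fam (fun l => (y l : L)) (Ψ l))) m0)
      ((c (a l) : M) : L)
    rw [one_mul] at h1
    rw [hΩ]
    exact h1
  · intro v hv
    obtain ⟨w, e, hwv, hg⟩ := exists_rot G v hv
    refine ⟨w, e, hwv, fun D D' hD hDD l g => ?_⟩
    obtain ⟨h1, h2, h', ζ, hord, hζ, hrot⟩ := hg g
    rw [← ge_comp, hΩ]
    exact est_gen G htr hreg hstab h1 h2 hord hζ hrot
      (hgood (a l) v _ e h1 h2 h' ζ hord hζ hrot) (hΨV l) hD hDD
  · intro l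
    refine Fin.cases ?_ (fun l => ?_) l
    · rw [hΩ0]
      exact hc0 0
    · refine Fin.addCases (fun l => ?_) (fun l => ?_) l
      · rw [hΩl]
        exact hc0 _
      · rw [hΩr]
        exact mul_ne_zero (hc0 0) (pow_ne_zero _ (htM.ne_zero l))
  · have e1 : (fun l : Fin (h + b) => Ω l.succ P / Ω 0 P) =
        Fin.append (fun l => ((c l.succ / c 0 : M) : L)) (fun j => t j ^ m0) := by
      funext l
      refine Fin.addCases (fun l => ?_) (fun l => ?_) l
      · rw [hΩl, hΩ0, Fin.append_left]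
        push_cast
        rfl
      · rw [hΩr, hΩ0, Fin.append_right, mul_div_cancel_left₀ _ (hc0 0)]
    rw [e1]
    exact indep_append (indep_join M hsi (indep_pow htM hm0))

end Pool.Agent.Y173.KR
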