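import Pool.Agent.Y173.KR.Base
import Pool.Agent.Y173.QM.Main

/-! The lower bound for fibrations whose fibres are quotients of products. -/

set_option autoImplicit false
set_option linter.overlappingInstances false
set_option linter.unusedSectionVars false

open FF IntermediateField Pool.Agent.W619.PQ Pool.Agent.W619.PL Pool.Agent.W619.TW
  Pool.Agent.W603.LV Pool.Agent.W619.Y Pool.Agent.W308.PG.YLOC Pool.Agent.Y173.QA
  Pool.Agent.Y173.QM

namespace Pool.Agent.Y173.KR

/-- the transcendence bases of two linearly disjoint subfields give one of their compositum -/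
theorem join_basis {k L : Type} [Field k] [Field L] [Algebra k L] {M P : IntermediateField k L}
    (hld : P.LinearDisjoint M) {m p : ℕ} {y : Fin m → M} (hy : IsTranscendenceBasis k y)
    {x : Fin p → P} (hx : IsTranscendenceBasis k x) :
    ∃ y2 : Fin (m + p) → ↥(M ⊔ P), IsTranscendenceBasis k y2 ∧
      (fun l => (y2 l : L)) = Fin.append (fun l => (y l : L)) (fun l => (x l : L)) := by
  classical
  have h1 : AlgebraicIndependent k (Fin.append (fun l => (y l : L)) (fun l => (x l : L))) :=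
    indep_append (indep_join M hy.1 (ai_of_ld hld hx.1))
  have hmem : ∀ l, Fin.append (fun l => (y l : L)) (fun l => (x l : L)) l ∈ M ⊔ P := by
    intro l
    refine Fin.addCases (fun l => ?_) (fun l => ?_) l
    · rw [Fin.append_left]
      exact (le_sup_left : M ≤ M ⊔ P) (y l).2
    · rw [Fin.append_right]
      exact (le_sup_right : P ≤ M ⊔ P) (x l).2
  refine ⟨fun l => ⟨_, hmem l⟩, ?_, rfl⟩
  have h2 : AlgebraicIndependent k (fun l : Fin (m + p) => (⟨_, hmem l⟩ : ↥(M ⊔ P))) :=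
    (AlgHom.algebraicIndependent_iff (M ⊔ P).val Subtype.val_injective).1 h1
  let Z : Fin (m + p) → L := Fin.append (fun l => (y l : L)) (fun l => (x l : L))
  have hM : M ≤ Pool.Agent.W904.PG.acl k (Set.range Z) := by
    refine (Pool.Agent.W904.PG.le_acl_of_basis M y hy).trans
      (Pool.Agent.W904.PG.acl_mono ?_)
    rintro _ ⟨l, rfl⟩
    exact ⟨Fin.castAdd p l, Fin.append_left _ _ l⟩
  have hP : P ≤ Pool.Agent.W904.PG.acl k (Set.range Z) := by
    refine (Pool.Agent.W904.PG.le_acl_of_basis P x hx).trans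
      (Pool.Agent.W904.PG.acl_mono ?_)
    rintro _ ⟨l, rfl⟩
    exact ⟨Fin.natAdd m l, Fin.append_right _ _ l⟩
  have h3 : Algebra.trdeg k ↥(M ⊔ P) ≤ (m + p : ℕ) := by
    refine (Pool.Agent.W904.PG.trdeg_le_acl (Set.range Z) (M ⊔ P) (sup_le hM hP)).trans ?_
    refine (Cardinal.mk_range_le (f := Z)).trans ?_
    simp
  refine h2.isTranscendenceBasis_of_trdeg_le_of_finite ?_
  simpa using h3

/-- the coefficients of pluricanonical forms with algebraically independent ratios, of degree a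
multiple of the given one -/
theorem coeffs {k K : Type} [Field k] [CharZero k] [Field K] [Algebra k K] {n m h : ℕ}
    {ω : Fin (h + 1) → (Fin n → Derivation k K K) → K}
    (hω : ∀ l, IsSec k K n (fun _ => False) {1} m 0 (ω l)) {D1 : Fin n → Derivation k K K}
    (h0 : ∀ l, ω l D1 ≠ 0)
    (hind : AlgebraicIndependent k (fun l : Fin h => ω l.succ D1 / ω 0 D1))
    {y : Fin n → K} (hy : IsTranscendenceBasis k y) {E : Fin n → Derivation k K K}
    (hE : ∀ i j, E i (y j) = if i = j then 1 else 0) :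
    (∀ l, ω l E ≠ 0) ∧ AlgebraicIndependent k (fun l : Fin h => ω l.succ E / ω 0 E) := by
  classical
  have hpl : ∀ l, ω l D1 = (Matrix.of fun i j => D1 i (y j)).det ^ m * ω l E := by
    intro l
    have h2 := (hω l).1 (Matrix.of fun i j => D1 i (y j)) E
    have h3 : (fun i => ∑ j, (Matrix.of fun i j => D1 i (y j)) i j • E j) = D1 := by
      funext i
      exact (expandK y E hy hE (D1 i)).symm
    rw [h3] at h2
    exact h2
  have hdet : (Matrix.of fun i j => D1 i (y j)).det ^ m ≠ 0 := by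
    intro h1
    apply h0 0
    rw [hpl, h1, zero_mul]
  refine ⟨?_, ?_⟩
  · intro l h1
    apply h0 l
    rw [hpl, h1, mul_zero]
  · have h1 : (fun l : Fin h => ω l.succ D1 / ω 0 D1) = fun l => ω l.succ E / ω 0 E := by
      funext l
      rw [hpl, hpl, mul_div_mul_left _ _ hdet]
    rwa [h1] at hind

theorem lowKR {k L : Type} [Field k] [CharZero k] [IsAlgClosed k] [Field L] [Algebra k L]
    [Algebra.EssFiniteType k L] {m p f : ℕ} (hn : Algebra.trdeg k L = (m + p + f : ℕ))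
    (M P : IntermediateField k L) [Algebra.EssFiniteType k M] [Algebra.EssFiniteType k P]
    (hld : P.LinearDisjoint M) (hM : Algebra.trdeg k M = m) (hP : Algebra.trdeg k P = p)
    (G : Subgroup (L ≃ₐ[k] L)) [Finite G] (hG : M ≤ fixedField G)
    (V : Submodule k (Derivation k L L →ₗ[L] L))
    (hreg : ∀ θ ∈ V, IsRegForm (m + p + f) θ) (hcl : ∀ θ ∈ V, IsClosedForm θ)
    (hstab : ∀ g ∈ G, ∀ θ ∈ V, ∃ θ' ∈ V, IsImage g θ θ')
    (hgen : ∃ θ : Fin f → Derivation k L L →ₗ[L] L, (∀ i, θ i ∈ V) ∧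
      IndepOver (m := m + p) (M ⊔ P) θ)
    (hRT : ReidTaiFib m p f G M P V) :
    ∃ b : ℕ, b + Module.finrank k (constFieldsOver (M ⊔ P) V) = f ∧
      ∀ h h', KodTr k M m h → KodTr k P p h' →
        KodTr k (fixedField G) (m + p + f) (h + h' + b) := by
  classical
  obtain ⟨θ, hθ, hind⟩ := hgen
  obtain ⟨z0, D0, hz0, hD0⟩ := (indep_iff (M ⊔ P) θ).1 hind
  obtain ⟨y, hy⟩ : ∃ y : Fin m → M, IsTranscendenceBasis k y := exists_tb hM
  obtain ⟨x, hx⟩ : ∃ x : Fin p → P, IsTranscendenceBasis k x := exists_tb hP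
  obtain ⟨y2, hy2, hy2e⟩ := join_basis hld hy hx
  obtain ⟨E, hE⟩ := exists_duals hy2
  -- change of the base coordinates
  have hD0' : eta (fam (fun l => (y2 l : L)) θ) D0 ≠ 0 := by
    intro h0
    apply hD0
    have h1 := eta_base (z := z0) (z' := fun l => (y2 l : L))
      (Matrix.of fun l c => ((E c ⟨z0 l, hz0 l⟩ : ↥(M ⊔ P)) : L))
      (fun D l => Pool.Agent.W308.PG.YLOC.expand y2 E hy2 hE D ⟨z0 l, hz0 l⟩) θ D0
    rw [h1, h0, mul_zero]
  have hzi : AlgebraicIndependent k (fun l => (y2 l : L)) :=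
    (AlgHom.algebraicIndependent_iff (M ⊔ P).val Subtype.val_injective).2 hy2.1
  have hMz : ∀ x ∈ M ⊔ P, ∀ D : Derivation k L L, (∀ l, D ((y2 l : ↥(M ⊔ P)) : L) = 0) →
      D x = 0 := by
    intro x hx D hD
    exact Pool.Agent.Y173.KU.der_zero_sub hy2 hD ⟨x, hx⟩
  obtain ⟨b, r, t, Φ, U, hbr, ht, hP1, hP2, htS, hU, hUz, hUt, hUspan, hUlin, hr⟩ :=
    structure_rel hn (fun y hy => fin_adj y hy) (M ⊔ P) V hreg hcl (fun l => (y2 l).2) hzi hMz hθ
      hD0'
  refine ⟨b, by rw [hr, hbr], fun h h' hk hk' => ?_⟩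
  obtain ⟨m1, hm1, ω1, hω1, D1, h01, hind1⟩ := hk
  obtain ⟨m2, hm2, ω2, hω2, D2, h02, hind2⟩ := hk'
  obtain ⟨E1, hE1⟩ := exists_duals hy
  obtain ⟨E2, hE2⟩ := exists_duals hx
  obtain ⟨hn1, hi1⟩ := coeffs hω1 h01 hind1 hy hE1
  obtain ⟨hn2, hi2⟩ := coeffs hω2 h02 hind2 hx hE2
  -- the coefficients of degree m1 * m2
  obtain ⟨A, hA⟩ : ∃ A : Fin (h + 1) → M, A = fun l => ω1 l E1 * ω1 0 E1 ^ (m2 - 1) := ⟨_, rfl⟩
  obtain ⟨B, hB⟩ : ∃ B : Fin (h' + 1) → P, B = fun l => ω2 l E2 * ω2 0 E2 ^ (m1 - 1) := ⟨_, rfl⟩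
  have hA0 : ∀ l, A l ≠ 0 := by
    intro l
    rw [hA]
    exact mul_ne_zero (hn1 l) (pow_ne_zero _ (hn1 0))
  have hB0 : ∀ l, B l ≠ 0 := by
    intro l
    rw [hB]
    exact mul_ne_zero (hn2 l) (pow_ne_zero _ (hn2 0))
  have hAr : ∀ l, A l / A 0 = ω1 l E1 / ω1 0 E1 := by
    intro l
    rw [hA]
    exact mul_div_mul_right _ _ (pow_ne_zero _ (hn1 0))
  have hBr : ∀ l, B l / B 0 = ω2 l E2 / ω2 0 E2 := by
    intro l
    rw [hB]
    exact mul_div_mul_right _ _ (pow_ne_zero _ (hn2 0))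
  have hAg : ∀ l, ∀ w : Place k L, IsDivisorial w (m + p + f) →
      BGood M m (m1 * m2) w (fun l => (y l : L)) ((A l : M) : L) := by
    intro l w hw
    obtain ⟨q1, q2⟩ := pow_form hω1 hm2 l
    have h1 := base_loc M m (m + p + f) (m1 * m2) hM hn (fun y hy => fin_over y hy) q1 q2 hy hE1 hw
    rw [hA]
    exact h1
  have hBg : ∀ l, ∀ w : Place k L, IsDivisorial w (m + p + f) →
      BGood P p (m1 * m2) w (fun l => (x l : L)) ((B l : P) : L) := by
    intro l w hw
    obtain ⟨q1, q2⟩ := pow_form hω2 hm1 l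
    rw [mul_comm m2 m1] at q1
    have h1 := base_loc P p (m + p + f) (m1 * m2) hP hn (fun y hy => fin_over y hy) q1 q2 hx hE2 hw
    rw [hB]
    exact h1
  let iM : M →ₐ[k] ↥(M ⊔ P) := IntermediateField.inclusion le_sup_left
  let iP : P →ₐ[k] ↥(M ⊔ P) := IntermediateField.inclusion le_sup_right
  have hiM : ∀ a, ((iM a : ↥(M ⊔ P)) : L) = a := fun a => rfl
  have hiP : ∀ a, ((iP a : ↥(M ⊔ P)) : L) = a := fun a => rfl
  obtain ⟨c, hc⟩ : ∃ c : Fin (h + h' + 1) → ↥(M ⊔ P), c =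
    Fin.cons (iM (A 0) * iP (B 0)) (Fin.append (fun l : Fin h => iM (A l.succ) * iP (B 0))
      (fun l : Fin h' => iM (A 0) * iP (B l.succ))) := ⟨_, rfl⟩
  have hcf : ∀ l, ∃ (i : Fin (h + 1)) (j : Fin (h' + 1)), c l = iM (A i) * iP (B j) := by
    intro l
    rw [hc]
    refine Fin.cases ⟨0, 0, rfl⟩ (fun l => ?_) l
    rw [Fin.cons_succ]
    refine Fin.addCases (fun l => ?_) (fun l => ?_) l
    · rw [Fin.append_left]
      exact ⟨_, _, rfl⟩
    · rw [Fin.append_right]
      exact ⟨_, _, rfl⟩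
  have hiM0 : ∀ l, iM (A l) ≠ 0 := fun l h1 => hA0 l (iM.injective (h1.trans (map_zero iM).symm))
  have hiP0 : ∀ l, iP (B l) ≠ 0 := fun l h1 => hB0 l (iP.injective (h1.trans (map_zero iP).symm))
  refine kodGen G (M ⊔ P) V hn hreg hstab hy2 hθ hP1 ht htS (m0 := m1 * m2)
    (Nat.mul_pos hm1 hm2) c ?_ ?_ ?_
  · intro l
    obtain ⟨i, j, hij⟩ := hcf l
    rw [hij]
    exact mul_ne_zero (hiM0 i) (hiP0 j)
  · have e1 : (fun l : Fin (h + h') => c l.succ / c 0) =
        Fin.append (fun l : Fin h => iM (ω1 l.succ E1 / ω1 0 E1))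
          (fun l : Fin h' => iP (ω2 l.succ E2 / ω2 0 E2)) := by
      funext l
      rw [hc]
      simp only [Fin.cons_succ, Fin.cons_zero]
      refine Fin.addCases (fun l => ?_) (fun l => ?_) l
      · rw [Fin.append_left, Fin.append_left, mul_div_mul_right _ _ (hiP0 0), ← hAr, map_div₀]
      · rw [Fin.append_right, Fin.append_right, mul_div_mul_left _ _ (hiM0 0), ← hBr, map_div₀]
    rw [e1]
    refine (AlgHom.algebraicIndependent_iff (M ⊔ P).val Subtype.val_injective).1 ?_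
    have e2 : (⇑(M ⊔ P).val ∘ Fin.append (fun l : Fin h => iM (ω1 l.succ E1 / ω1 0 E1))
          (fun l : Fin h' => iP (ω2 l.succ E2 / ω2 0 E2))) =
        Fin.append (fun l : Fin h => ((ω1 l.succ E1 / ω1 0 E1 : M) : L))
          (fun l : Fin h' => ((ω2 l.succ E2 / ω2 0 E2 : P) : L)) := by
      funext l
      rw [Function.comp_apply]
      refine Fin.addCases (fun l => ?_) (fun l => ?_) l
      · rw [Fin.append_left, Fin.append_left]
        rfl
      · rw [Fin.append_right, Fin.append_right]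
        rfl
    rw [e2]
    exact indep_append (indep_join M hi1 (ai_of_ld hld hi2))
  · intro l v w e hwv hw g ζ hord hζ hrot
    obtain ⟨i, j, hij⟩ := hcf l
    have h1 := good_prod hG hRT hwv hw hord hζ (hAg i w hw) (hBg j w hw)
    have h2 : ((c l : ↥(M ⊔ P)) : L) = ((A i : M) : L) * ((B j : P) : L) := by
      rw [hij]
      rfl
    rw [h2]
    rw [hy2e]
    exact h1

end Pool.Agent.Y173.KR
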