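import Pool.Agent.Y173.KR.Stm

/-! Relative pluricanonical forms have coefficients in the ring generated by the two factors
(job 8805, helper333). -/

set_option autoImplicit false
set_option linter.overlappingInstances false
set_option linter.unusedSectionVars false

open FF IntermediateField Pool.Agent.W619.PQ Pool.Agent.W619.PL Pool.Agent.W619.TW
  Pool.Agent.W603.LV Pool.Agent.W619.Y Pool.Agent.TH122.AB MvPolynomial Pool.Agent.Y173.QA
  Pool.Agent.Y173.KU

namespace Pool.Agent.Y173.KR.Sec

section

variable {k : Type} [Field k] [CharZero k] {L : Type} [Field L] [Algebra k L]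
  {M F : IntermediateField k L}

/-- integral over the polynomials in the `z` over `M` -/
theorem int_adj {m f : ℕ} {y : Fin m → M} {z : Fin f → F} {g : L} (h : IsIntegral (Algebra.adjoin k (Set.range
      (Fin.append (fun l => (y l : L)) (fun l => (z l : L))))) g) :
    IsIntegral (Algebra.adjoin M (Set.range fun l => (z l : L))) g := by
  have hle : ∀ x ∈ Algebra.adjoin k (Set.range
      (Fin.append (fun l => (y l : L)) (fun l => (z l : L)))),
      x ∈ Algebra.adjoin M (Set.range fun l => (z l : L)) := by
    intro x hx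
    induction hx using Algebra.adjoin_induction with
    | mem x hx =>
      obtain ⟨i, rfl⟩ := hx
      refine Fin.addCases (fun l => ?_) (fun l => ?_) i
      · rw [Fin.append_left]
        exact (Algebra.adjoin M (Set.range fun l => (z l : L))).algebraMap_mem (y l)
      · rw [Fin.append_right]
        exact Algebra.subset_adjoin ⟨l, rfl⟩
    | algebraMap c =>
      have h1 : algebraMap k L c = algebraMap M L (algebraMap k M c) :=
        IsScalarTower.algebraMap_apply k M L c
      rw [h1]
      exact (Algebra.adjoin M (Set.range fun l => (z l : L))).algebraMap_mem _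
    | add y z _ _ hy hz => exact add_mem hy hz
    | mul y z _ _ hy hz => exact mul_mem hy hz
  let ψ : Algebra.adjoin k (Set.range
    (Fin.append (fun l => (y l : L)) (fun l => (z l : L)))) →+*
    Algebra.adjoin M (Set.range fun l => (z l : L)) :=
    (algebraMap (Algebra.adjoin k (Set.range
      (Fin.append (fun l => (y l : L)) (fun l => (z l : L))))) L).codRestrict
      (Algebra.adjoin M (Set.range fun l => (z l : L))) fun x => hle x x.2
  have h1 := h.map_of_comp_eq ψ (RingHom.id L) (RingHom.ext fun x => rfl)
  rwa [RingHom.id_apply] at h1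

/-- An element which is regular at all the horizontal places is in the ring generated by the two
factors. -/
theorem mem_RR [IsAlgClosed k] [Algebra.EssFiniteType k L] [Algebra.EssFiniteType k F]
    (h : Prd M F) {m f : ℕ}
    (htr : Algebra.trdeg k L = (m + f : ℕ)) {y : Fin m → M} (hy : IsTranscendenceBasis k y)
    {z : Fin f → F} (hz : IsTranscendenceBasis k z) {g : L}
    (hg : ∀ p : MvPolynomial (Fin (m + f)) k, Irreducible p → ¬ Vert p → ¬ Vert' p →
      ∀ P : Place k L, Adic (Fin.append (fun l => (y l : L)) (fun l => (z l : L))) p P →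
        P.Reg g) : g ∈ RR M F := by
  classical
  have hZ := append_basis h.sup htr hy hz
  have hfin : ∀ y : Fin (m + f) → L, IsTranscendenceBasis k y →
      FiniteDimensional (IntermediateField.adjoin k (Set.range y)) L := fun y hy => fin_adj y hy
  obtain ⟨q0, q1, hq0, hq1, hint⟩ := mult_of_hor hZ (hfin _ hZ) (g := g) hg
  have hint2 := int_adj hint
  have hRR := Pool.Agent.Y173.KU.Tri.main k L M F f z h hz (fin_adj z hz) _ hint2
  have hc : aeval (fun l => (y l : L)) q0 = ((aeval y q0 : M) : L) :=
    MvPolynomial.aeval_algebraMap_apply L y q0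
  have hd : aeval (fun l => (z l : L)) q1 = ((aeval z q1 : F) : L) :=
    MvPolynomial.aeval_algebraMap_apply L z q1
  have hc0 : (aeval y q0 : M) ≠ 0 := fun h0 => hq0 ((injective_iff_map_eq_zero _).1 hy.1 _ h0)
  have hd0 : (aeval z q1 : F) ≠ 0 := fun h0 => hq1 ((injective_iff_map_eq_zero _).1 hz.1 _ h0)
  have hcL : ((aeval y q0 : M) : L) ≠ 0 := fun h0 => hc0 (Subtype.ext h0)
  have hdL : ((aeval z q1 : F) : L) ≠ 0 := fun h0 => hd0 (Subtype.ext h0)
  rw [hc, hd] at hRR
  have h1 : g = (((aeval y q0)⁻¹ : M) : L) * (((aeval z q1)⁻¹ : F) : L) *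
      (((aeval y q0 : M) : L) * ((aeval z q1 : F) : L) * g) := by
    push_cast
    field_simp
  rw [h1]
  exact mul_mem (mul_mem (RR.left ((aeval y q0)⁻¹ : M).2) (RR.right ((aeval z q1)⁻¹ : F).2)) hRR

end

section

variable {k : Type} [Field k] {L : Type} [Field L] [Algebra k L]

/-- The identity of the field `Q` over `M` and over `k`. -/
def eqv {M Q : IntermediateField k L} (h : M ≤ Q) : extendScalars h ≃ₐ[k] Q where
  toFun := fun x => ⟨x, x.2⟩
  invFun := fun x => ⟨x, x.2⟩
  left_inv := fun _ => rfl
  right_inv := fun _ => rfl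
  map_mul' := fun _ _ => rfl
  map_add' := fun _ _ => rfl
  commutes' := fun _ => rfl

theorem eqv_coe {M Q : IntermediateField k L} (h : M ≤ Q) (x : extendScalars h) :
    ((eqv (k := k) h x : Q) : L) = (x : L) := rfl

theorem coe_am {M Q : IntermediateField k L} (h : M ≤ Q) (x : M) :
    ((algebraMap M (extendScalars h) x : extendScalars h) : L) = (x : L) := by
  rw [← IntermediateField.algebraMap_apply, ← IsScalarTower.algebraMap_apply M (extendScalars h) L]
  rfl

/-- a transcendence basis of `M` over `k` and one of `Q` over `M` -/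
theorem tower_basis {M Q : IntermediateField k L} (h : M ≤ Q) {m f : ℕ} {y : Fin m → M}
    (hy : IsTranscendenceBasis k y) {z : Fin f → extendScalars h}
    (hz : IsTranscendenceBasis M z) :
    IsTranscendenceBasis k (Fin.append (fun l => (⟨(y l : L), h (y l).2⟩ : Q))
      (fun l => (⟨(z l : L), (z l).2⟩ : Q))) := by
  have h1 := (eqv h).isTranscendenceBasis (hy.sumElim_comp hz)
  let e : Fin (m + f) ≃ Fin f ⊕ Fin m := finSumFinEquiv.symm.trans (Equiv.sumComm _ _)
  have h2 := h1.comp_equiv e
  have h3 : (⇑(eqv h) ∘ Sum.elim z (⇑(algebraMap M (extendScalars h)) ∘ y)) ∘ ⇑e =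
      Fin.append (fun l => (⟨(y l : L), h (y l).2⟩ : Q)) (fun l => (⟨(z l : L), (z l).2⟩ : Q)) := by
    funext i
    refine Fin.addCases (fun l => ?_) (fun l => ?_) i
    · rw [Fin.append_left]
      have h4 : e (Fin.castAdd f l) = Sum.inr l := by simp [e]
      rw [Function.comp_apply, h4, Function.comp_apply, Sum.elim_inr, Function.comp_apply]
      apply Subtype.ext
      rw [eqv_coe, coe_am]
    · rw [Fin.append_right]
      have h4 : e (Fin.natAdd m l) = Sum.inl l := by simp [e]
      rw [Function.comp_apply, h4, Function.comp_apply, Sum.elim_inl]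
      apply Subtype.ext
      rw [eqv_coe]
  rw [← h3]
  exact h2

end

/-- **(KR-SEC)** -/
theorem main (hDIV : S_DIV) : S_SEC := by
  intro k L _ _ _ _ _ _ M P Q _ _ m p f hMQ hD w z E hF N ω hω
  classical
  have hMchar : CharZero M := charZero_of_injective_algebraMap (algebraMap k M).injective
  obtain ⟨y, hy⟩ : ∃ y : Fin m → M, IsTranscendenceBasis k y := exists_tb hD.tM
  have hy' := tower_basis hMQ hy hF.bz
  have hPrd : Prd P Q := prd_of_trdeg hD.sup hD.tL hD.tP hD.tQ
  have hfin : ∀ y : Fin (p + (m + f)) → L, IsTranscendenceBasis k y →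
      FiniteDimensional (IntermediateField.adjoin k (Set.range y)) L := fun y hy => fin_adj y hy
  -- the derivations preserve the ring
  have hEP : ∀ (i : Fin (p + f)) (μ : P), E i (μ : L) ∈ RR P Q := by
    intro i μ
    refine Fin.addCases (fun l => ?_) (fun l => ?_) i
    · refine RR.left (der_mem (D := (E (Fin.castAdd f l)).restrictScalars k) hF.bw (fun j => ?_) μ)
      change E (Fin.castAdd f l) (w j : L) ∈ P
      rw [hF.e2]
      split
      · exact P.one_mem
      · exact P.zero_mem
    · rw [hF.e3]
      exact zero_mem _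
  have hEQ : ∀ (i : Fin (p + f)) (β : Q), E i (β : L) ∈ RR P Q := by
    intro i β
    refine Fin.addCases (fun l => ?_) (fun l => ?_) i
    · rw [hF.e1]
      exact zero_mem _
    · have h1 : E (Fin.natAdd p l) (β : L) ∈ extendScalars hMQ := by
        refine der_mem (M := extendScalars hMQ) (D := E (Fin.natAdd p l)) hF.bz (fun j => ?_)
          (⟨(β : L), β.2⟩ : extendScalars hMQ)
        rw [hF.e4]
        split
        · exact (extendScalars hMQ).one_mem
        · exact (extendScalars hMQ).zero_mem
      exact RR.right h1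
  refine mem_RR hPrd hD.tL hF.bw hy' fun q hq hv hv' P1 hP1 => ?_
  obtain ⟨hdiv, hPP, hPQ, hpres⟩ := hor_pres hD.tL hfin hPrd.frac hF.bw hy'
    (append_basis hD.sup hD.tL hF.bw hy') hq hv hv' hP1
  have hPM : ∀ x : M, P1.ord (x : L) = 0 := fun x => hPQ ⟨x, hMQ x.2⟩
  have htL : Algebra.trdeg k L = (m + (p + f) : ℕ) := by
    rw [hD.tL]
    congr 1
    omega
  have hdivu : IsDivisorial (lift P1 hPM) (p + f) := by
    refine (hDIV k L M m (p + f) hD.tM htL _).2 ?_
    have h1 : m + (p + f) = p + (m + f) := by omega
    rw [h1]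
    exact hdiv
  have hdom := hω.2.1 (lift P1 hPM) hdivu (fun h => h) E fun l g hg =>
    hpres ((E l).restrictScalars k) (hEP l) (hEQ l) g hg
  rcases hdom with h0 | ⟨s, hs, hs0, hsP⟩
  · rw [h0]
    exact P1.reg_zero
  · right
    rw [Nat.cast_zero, zero_mul] at hsP
    exact hsP

end Pool.Agent.Y173.KR.Sec
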