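import Mathlib

/-!
# Algebraically independent ratios of sums of products: field theory

The part on `acl` is copied from `Pool.Agent.W904.PG.T2`.
-/

set_option autoImplicit false
set_option linter.unusedSectionVars false

universe u v w

namespace Pool.Agent.Y173.KR.TenCore

section acl

variable {k : Type v} {E : Type u} [Field k] [Field E] [Algebra k E]

/-- the elements algebraic over the algebra generated by `S` -/
noncomputable def acl (k : Type v) {E : Type u} [Field k] [Field E] [Algebra k E] (S : Set E) :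
    IntermediateField k E where
  carrier := {x | IsAlgebraic (Algebra.adjoin k S) x}
  mul_mem' := fun ha hb => ha.mul hb
  add_mem' := fun ha hb => ha.add hb
  algebraMap_mem' := fun r => by
    have : algebraMap k E r = algebraMap (Algebra.adjoin k S) E (algebraMap k _ r) := rfl
    show IsAlgebraic (Algebra.adjoin k S) (algebraMap k E r)
    rw [this]
    exact isAlgebraic_algebraMap _
  inv_mem' := fun _ ha => ha.inv

theorem mem_acl {S : Set E} {x : E} : x ∈ acl k S ↔ IsAlgebraic (Algebra.adjoin k S) x := Iff.rfl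

theorem subset_acl (S : Set E) : S ⊆ acl k S := by
  intro x hx
  have : x = algebraMap (Algebra.adjoin k S) E ⟨x, Algebra.subset_adjoin hx⟩ := rfl
  show IsAlgebraic (Algebra.adjoin k S) x
  rw [this]
  exact isAlgebraic_algebraMap _

theorem isAlg_mono {S T : Set E} (h : S ⊆ T) {x : E}
    (hx : IsAlgebraic (Algebra.adjoin k S) x) : IsAlgebraic (Algebra.adjoin k T) x := by
  have h2 := IsAlgebraic.ringHom_of_comp_eq (R := Algebra.adjoin k S) (A := E)
      (S := Algebra.adjoin k T) (B := E)
      (Subalgebra.inclusion (Algebra.adjoin_mono h) : _ →ₐ[k] _).toRingHom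
      (RingHom.id E) hx (Subalgebra.inclusion_injective _) ?_
  · exact h2
  · ext z
    rfl

theorem acl_mono {S T : Set E} (h : S ⊆ T) : acl k S ≤ acl k T := fun _ hx => isAlg_mono h hx

/-- the transcendence degree of a subfield of `acl S` is at most `#S` -/
theorem trdeg_le_acl (S : Set E) (N : IntermediateField k E) (hN : N ≤ acl k S) :
    Algebra.trdeg k N ≤ Cardinal.mk S := by
  have h1 : Algebra.trdeg k N ≤ Algebra.trdeg k (acl k S) :=
    trdeg_le_of_injective (IntermediateField.inclusion hN)
      (IntermediateField.inclusion hN).injective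
  refine h1.trans ?_
  let S' : Set (acl k S) := {x | (x : E) ∈ S}
  have h2 : Algebra.IsAlgebraic (Algebra.adjoin k S') (acl k S) := by
    constructor
    intro x
    have hx : IsAlgebraic (Algebra.adjoin k S) (x : E) := x.2
    have hmap : (Algebra.adjoin k S').map (acl k S).val = Algebra.adjoin k S := by
      rw [AlgHom.map_adjoin]
      congr 1
      ext z
      constructor
      · rintro ⟨w, hw, rfl⟩
        exact hw
      · intro hz
        exact ⟨⟨z, subset_acl S hz⟩, hz, rfl⟩
    let g : Algebra.adjoin k S' ≃ₐ[k] (Algebra.adjoin k S').map (acl k S).val :=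
      Subalgebra.equivMapOfInjective _ _ (acl k S).val.injective
    let g2 : Algebra.adjoin k S →ₐ[k] Algebra.adjoin k S' :=
      (g.symm : _ →ₐ[k] _).comp (Subalgebra.inclusion hmap.ge)
    have hg2 : ∀ z : Algebra.adjoin k S, (((g2 z : Algebra.adjoin k S') : acl k S) : E) = z := by
      intro z
      have : g (g2 z) = Subalgebra.inclusion hmap.ge z := g.apply_symm_apply _
      have h3 := congrArg Subtype.val this
      exact h3
    have hg2i : Function.Injective g2 := by
      intro a b hab
      have := hg2 a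
      rw [hab, hg2] at this
      exact Subtype.ext this.symm
    obtain ⟨p, hp0, hp⟩ := hx
    refine ⟨p.map g2.toRingHom, ?_, ?_⟩
    · rw [Ne, Polynomial.map_eq_zero_iff hg2i]
      exact hp0
    · apply Subtype.val_injective
      have h4 : ((Polynomial.aeval x (p.map g2.toRingHom) : acl k S) : E) =
          Polynomial.aeval (x : E) p := by
        rw [Polynomial.aeval_def, Polynomial.aeval_def, Polynomial.eval₂_map]
        have := Polynomial.hom_eval₂ p ((algebraMap (Algebra.adjoin k S') (acl k S)).comp
          g2.toRingHom) (acl k S).val.toRingHom x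
        refine this.trans ?_
        congr 1
        ext z
        exact hg2 z
      rw [h4, hp]
      rfl
  refine (Algebra.IsAlgebraic.trdeg_le_cardinalMk k S').trans ?_
  exact Cardinal.mk_le_of_injective (f := fun z : S' => (⟨((z : acl k S) : E), z.2⟩ : S))
    (fun a b hab => Subtype.ext (Subtype.ext (by
      have h := congrArg (fun z : S => (z : E)) hab
      exact h)))

end acl

/-- algebraic elements and homomorphisms -/
lemma alg_map {k M P L : Type} [Field k] [Field M] [Field P] [Field L] [Algebra k P] [Algebra M L]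
    (φ : P →+* L) (R0 : Set P) (T : Subalgebra M L) (hk : ∀ c : k, φ (algebraMap k P c) ∈ T)
    (h0 : ∀ y ∈ R0, φ y ∈ T) (y : P) (hy : IsAlgebraic (Algebra.adjoin k R0) y) :
    IsAlgebraic T (φ y) := by
  have h1 : ∀ z ∈ Algebra.adjoin k R0, φ z ∈ T := by
    intro z hz
    induction hz using Algebra.adjoin_induction with
    | mem x hx => exact h0 x hx
    | algebraMap r => exact hk r
    | add x y _ _ hx hy =>
      rw [map_add]
      exact add_mem hx hy
    | mul x y _ _ hx hy =>
      rw [map_mul]
      exact mul_mem hx hy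
  let g : Algebra.adjoin k R0 →+* T :=
    (φ.comp (Algebra.adjoin k R0).val.toRingHom).codRestrict T fun z => h1 z z.2
  refine IsAlgebraic.ringHom_of_comp_eq g φ hy ?_ ?_
  · intro a b hab
    have h2 : φ (a : P) = φ (b : P) := congrArg Subtype.val hab
    exact Subtype.ext (φ.injective h2)
  · ext z
    rfl

/-- an algebraically independent subfamily over which the family is algebraic -/
lemma exists_basis {k E J : Type} [Field k] [Field E] [Algebra k E] [Finite J] (v : J → E) :
    ∃ (a : ℕ) (σ : Fin a → J), AlgebraicIndependent k (fun i => v (σ i)) ∧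
      ∀ j, IsAlgebraic (Algebra.adjoin k (Set.range fun i => v (σ i))) (v j) := by
  obtain ⟨U, -, hU⟩ := exists_maximal_algebraicIndependent (R := k) (∅ : Set E) (Set.range v)
    (Set.empty_subset _) ((algebraicIndependent_empty_iff k E).2 (algebraMap k E).injective)
  have hfin : U.Finite := (Set.finite_range v).subset hU.prop.2
  have := hfin.to_subtype
  obtain ⟨a, ⟨e⟩⟩ := Finite.exists_equiv_fin U
  have h1 : ∀ z : U, ∃ j, v j = z := fun z => hU.prop.2 z.2
  choose s hs using h1
  have h2 : (fun i : Fin a => v (s (e.symm i))) = fun i => ((e.symm i : U) : E) := by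
    funext i
    exact hs _
  refine ⟨a, fun i => s (e.symm i), ?_, ?_⟩
  · rw [h2]
    exact (hU.prop.1 : AlgebraicIndependent k fun z : U => (z : E)).comp _ e.symm.injective
  · intro j
    have h3 : (Set.range fun i : Fin a => v (s (e.symm i))) = U := by
      rw [h2]
      ext z
      constructor
      · rintro ⟨i, rfl⟩
        exact (e.symm i).2
      · intro hz
        exact ⟨e ⟨z, hz⟩, by simp⟩
    rw [h3]
    by_contra hcon
    have h4 : Transcendental (Algebra.adjoin k (id '' U)) (id (v j)) := by
      rw [Set.image_id]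
      exact hcon
    have h5 := AlgebraicIndepOn.insert (x := id) hU.prop.1 h4
    have h6 := hU.le_of_ge ⟨h5, Set.insert_subset ⟨j, rfl⟩ hU.prop.2⟩ (Set.subset_insert _ _)
    have h7 : v j ∈ U := h6 (Set.mem_insert _ _)
    apply hcon
    have h8 : v j = algebraMap (Algebra.adjoin k U) E ⟨v j, Algebra.subset_adjoin h7⟩ := rfl
    rw [h8]
    exact isAlgebraic_algebraMap _

open IntermediateField in
theorem core (k L : Type) [Field k] [Field L] [Algebra k L]
    (M P Q : IntermediateField k L) (hMQ : M ≤ Q) (A : Set P) (B : Set (extendScalars hMQ))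
    (h : ℕ) (x : Fin (h + 1) → L) (hx : ∀ l, x l ≠ 0)
    (hai : AlgebraicIndependent M (fun l : Fin h => x l.succ / x 0))
    (hex : ∀ l, ∃ (r : ℕ) (β : Fin r → extendScalars hMQ) (μ : Fin r → P),
      (∀ i, β i ∈ B ∧ β i ≠ 0 ∧ μ i ∈ A ∧ μ i ≠ 0) ∧ x l = ∑ i, (β i : L) * (μ i : L)) :
    ∃ (a b : ℕ) (μ : Fin (a + 1) → P) (β : Fin (b + 1) → extendScalars hMQ), h ≤ a + b ∧
      (∀ i, μ i ∈ A ∧ μ i ≠ 0) ∧ (∀ i, β i ∈ B ∧ β i ≠ 0) ∧
      AlgebraicIndependent k (fun l : Fin a => μ l.succ / μ 0) ∧
      AlgebraicIndependent M (fun l : Fin b => β l.succ / β 0) := by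
  choose r β μ hβμ hxs using hex
  let J := Σ l, Fin (r l)
  let mu : J → P := fun j => μ j.1 j.2
  let be : J → extendScalars hMQ := fun j => β j.1 j.2
  have hmu : ∀ j : J, mu j ∈ A ∧ mu j ≠ 0 := fun j => (hβμ j.1 j.2).2.2
  have hbe : ∀ j : J, be j ∈ B ∧ be j ≠ 0 := fun j => ⟨(hβμ j.1 j.2).1, (hβμ j.1 j.2).2.1⟩
  have hr0 : 0 < r 0 := by
    rcases Nat.eq_zero_or_pos (r 0) with h0 | h0
    · exfalso
      apply hx 0
      rw [hxs 0]
      have : IsEmpty (Fin (r 0)) := by rw [h0]; infer_instance
      exact Finset.sum_of_isEmpty _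
    · exact h0
  let j0 : J := ⟨0, ⟨0, hr0⟩⟩
  obtain ⟨a, σ, ha1, ha2⟩ := exists_basis (k := k) (fun j : J => mu j / mu j0)
  obtain ⟨b, τ, hb1, hb2⟩ := exists_basis (k := M) (fun j : J => be j / be j0)
  refine ⟨a, b, Fin.cons (mu j0) fun i => mu (σ i), Fin.cons (be j0) fun i => be (τ i), ?_, ?_, ?_,
    ?_, ?_⟩
  · -- the dimension count
    let S : Set L := (Set.range fun i : Fin a => ((mu (σ i) / mu j0 : P) : L)) ∪
      (Set.range fun i : Fin b => ((be (τ i) / be j0 : extendScalars hMQ) : L))
    have hP : ∀ j : J, ((mu j / mu j0 : P) : L) ∈ acl M S := by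
      intro j
      refine alg_map (k := k) (M := M) (algebraMap P L) _ (Algebra.adjoin M S) ?_ ?_ _ (ha2 j)
      · intro c
        have : algebraMap P L (algebraMap k P c) = algebraMap M L (algebraMap k M c) := rfl
        rw [this]
        exact Subalgebra.algebraMap_mem _ _
      · rintro _ ⟨i, rfl⟩
        exact Algebra.subset_adjoin (Or.inl ⟨i, rfl⟩)
    have hQ : ∀ j : J, ((be j / be j0 : extendScalars hMQ) : L) ∈ acl M S := by
      intro j
      refine alg_map (k := M) (M := M) (algebraMap (extendScalars hMQ) L) _ (Algebra.adjoin M S)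
        ?_ ?_ _ (hb2 j)
      · intro c
        have : algebraMap (extendScalars hMQ) L (algebraMap M (extendScalars hMQ) c) =
          algebraMap M L c := rfl
        rw [this]
        exact Subalgebra.algebraMap_mem _ _
      · rintro _ ⟨i, rfl⟩
        exact Algebra.subset_adjoin (Or.inr ⟨i, rfl⟩)
    have hm0 : ((mu j0 : P) : L) ≠ 0 := fun h0 => (hmu j0).2 (Subtype.ext h0)
    have hb0 : ((be j0 : extendScalars hMQ) : L) ≠ 0 := fun h0 => (hbe j0).2 (Subtype.ext h0)
    have hxl : ∀ l, x l / ((be j0 : L) * (mu j0 : L)) ∈ acl M S := by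
      intro l
      rw [hxs l, Finset.sum_div]
      refine sum_mem fun i _ => ?_
      have h1 : (β l i : L) * (μ l i : L) / ((be j0 : L) * (mu j0 : L)) =
          ((be ⟨l, i⟩ / be j0 : extendScalars hMQ) : L) * ((mu ⟨l, i⟩ / mu j0 : P) : L) := by
        show _ = ((be ⟨l, i⟩ : L) / (be j0 : L)) * ((mu ⟨l, i⟩ : L) / (mu j0 : L))
        rw [div_mul_div_comm]
      rw [h1]
      exact mul_mem (hQ _) (hP _)
    have hrat : ∀ l : Fin h, x l.succ / x 0 ∈ acl M S := by
      intro l
      have h1 : x l.succ / x 0 = (x l.succ / ((be j0 : L) * (mu j0 : L))) /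
          (x 0 / ((be j0 : L) * (mu j0 : L))) := by
        rw [div_div_div_cancel_right₀ (mul_ne_zero hb0 hm0)]
      rw [h1]
      exact div_mem (hxl _) (hxl _)
    have h1 : AlgebraicIndependent M (fun l : Fin h => (⟨x l.succ / x 0, hrat l⟩ : acl M S)) :=
      AlgebraicIndependent.of_comp (acl M S).val hai
    have h2 := h1.cardinalMk_le_trdeg.trans (trdeg_le_acl S (acl M S) le_rfl)
    have h3 : Cardinal.mk S ≤ (a : Cardinal) + (b : Cardinal) := by
      refine (Cardinal.mk_union_le _ _).trans (add_le_add ?_ ?_)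
      · refine Cardinal.mk_range_le.trans ?_
        rw [Cardinal.mk_fin]
      · refine Cardinal.mk_range_le.trans ?_
        rw [Cardinal.mk_fin]
    rw [Cardinal.mk_fin] at h2
    have h4 := h2.trans h3
    exact_mod_cast h4
  · intro i
    refine Fin.cases ?_ (fun i => ?_) i
    · exact hmu j0
    · exact hmu (σ i)
  · intro i
    refine Fin.cases ?_ (fun i => ?_) i
    · exact hbe j0
    · exact hbe (τ i)
  · simpa only [Fin.cons_succ, Fin.cons_zero] using ha1
  · simpa only [Fin.cons_succ, Fin.cons_zero] using hb1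

end Pool.Agent.Y173.KR.TenCore
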