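import Pool.Agent.Y173.KR.Stm
import Pool.Agent.Y173.KR.TenCore

/-!
# Algebraically independent ratios of sums of products (KR-TEN)
-/

set_option autoImplicit false

namespace Pool.Agent.Y173.KR.Ten

theorem main : S_TEN := by
  intro k L _ _ _ M P Q hMQ A B h x hx hai hex
  exact TenCore.core k L M P Q hMQ A B h x hx hai hex

end Pool.Agent.Y173.KR.Ten
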