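import Pool.Agent.Y173.KR.Fin
import Pool.Agent.Y173.KR.Div
import Pool.Agent.Y173.KR.Sec
import Pool.Agent.Y173.KR.Cfp2
import Pool.Agent.Y173.KR.Cfq
import Pool.Agent.Y173.KR.Ten

/-! Subadditivity of the Kodaira dimension for fibrations whose fibres are quotients of products. -/

set_option autoImplicit false
set_option linter.overlappingInstances false
set_option linter.unusedSectionVars false

open FF IntermediateField Pool.Agent.W619.PQ Pool.Agent.W619.PL Pool.Agent.W619.TW
  Pool.Agent.W603.LV Pool.Agent.W619.Y Pool.Agent.Y173.QA Pool.Agent.Y173.QM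

namespace Pool.Agent.Y173.KR

theorem main {k L : Type} [Field k] [CharZero k] [IsAlgClosed k] [Field L] [Algebra k L]
    [Algebra.EssFiniteType k L] {M P Q : IntermediateField k L}
    [Algebra.EssFiniteType k M] [Algebra.EssFiniteType k P]
    [Algebra.EssFiniteType k Q] {m p f : ℕ} (hMQ : M ≤ Q) (hdim : Dim M P Q m p f)
    (G : Subgroup (L ≃ₐ[k] L)) [Finite G] (hG : M ≤ fixedField G)
    (V : Submodule k (Derivation k L L →ₗ[L] L))
    (hreg : ∀ θ ∈ V, IsRegForm (m + p + f) θ) (hcl : ∀ θ ∈ V, IsClosedForm θ)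
    (hstab : ∀ g ∈ G, ∀ θ ∈ V, ∃ θ' ∈ V, IsImage g θ θ')
    (hgen : ∃ θ : Fin f → Derivation k L L →ₗ[L] L, (∀ i, θ i ∈ V) ∧
      IndepOver (m := m + p) (M ⊔ P) θ)
    (hRT : ReidTaiFib m p f G M P V) :
    ∃ b : ℕ, b + Module.finrank k (constFieldsOver (M ⊔ P) V) = f ∧
      (∀ h h', KodTr k M m h → KodTr k P p h' →
        KodTr k (fixedField G) (m + p + f) (h + h' + b)) ∧
      (∀ h', KodTr M (extendScalars hG) (p + f) h' →
        ∃ a c, h' ≤ a + c ∧ KodTr k P p a ∧ KodTr M (extendScalars hMQ) f c) ∧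
      ((constFieldsOver (M ⊔ P) V = ⊥ ∨ ∀ c, KodTr M (extendScalars hMQ) f c → c ≤ b) →
        ∀ h h', KodTr k M m h → KodTr M (extendScalars hG) (p + f) h' →
          KodTr k (fixedField G) (m + p + f) (h + h')) :=
  kr_main (Sec.main Div.main) (Cfp2.main Div.main) (Cfq.main Div.main) Ten.main hMQ hdim G hG V hreg
    hcl hstab hgen hRT

end Pool.Agent.Y173.KR
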