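import Pool.Agent.Y173.KR.Low

/-! The upper bound for the Kodaira dimension of the generic fibre. -/

set_option autoImplicit false
set_option linter.overlappingInstances false
set_option linter.unusedSectionVars false

universe u v

open FF IntermediateField Pool.Agent.W619.PQ Pool.Agent.W619.PL Pool.Agent.W619.TW
  Pool.Agent.W603.LV Pool.Agent.W619.Y Pool.Agent.W308.PG.YLOC Pool.Agent.Y173.QA
  Pool.Agent.Y173.QM Algebra

namespace Pool.Agent.Y173.KR

section

variable {k : Type v} [Field k] [CharZero k] {K L : Type u} [Field K] [Field L] [Algebra k K]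
  [Algebra k L] [Algebra K L] [IsScalarTower k K L]

/-- Pull-back of pluricanonical forms. -/
theorem kod_up [FiniteDimensional K L] {n A : ℕ} (hn : Algebra.trdeg k K = n)
    (hfin : ∀ y : Fin n → K, IsTranscendenceBasis k y →
      FiniteDimensional (IntermediateField.adjoin k (Set.range y)) K)
    (h : KodTr k K n A) : KodTr k L n A := by
  classical
  obtain ⟨m, hm, ω, hω, D, hD0, hDi⟩ := h
  obtain ⟨y, hy⟩ := Pool.Agent.W636.PG.exists_basis k K n hn
  obtain ⟨E, hE⟩ := Pool.Agent.W636.PG.exists_duals k K n y hy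
  have hyL : IsTranscendenceBasis k (algebraMap K L ∘ y) := hy.algebraMap_comp
  obtain ⟨E', hE'⟩ := Pool.Agent.W636.PG.exists_duals k L n _ hyL
  have hval : ∀ l, ω l D = (Matrix.of fun i j => D i (y j)).det ^ m * ω l E := fun l =>
    Pool.Agent.W636.PG.form_eq k K n m y hy E hE (ω l) (hω l).1 D
  have hdet0 : (Matrix.of fun i j => D i (y j)).det ^ m ≠ 0 := by
    intro h0
    apply hD0 0
    rw [hval, h0, zero_mul]
  have hE0 : ∀ l, ω l E ≠ 0 := by
    intro l h0
    apply hD0 l
    rw [hval, h0, mul_zero]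
  have hdet : (Matrix.of fun a b => E' a (algebraMap K L (y b))).det = 1 := by
    have h1 : (Matrix.of fun a b => E' a (algebraMap K L (y b))) = 1 := by
      ext a b
      rw [Matrix.of_apply, Matrix.one_apply]
      exact hE' a b
    rw [h1, Matrix.det_one]
  refine ⟨m, hm, fun l D => (Matrix.of fun a b => D a (algebraMap K L (y b))).det ^ m *
    algebraMap K L (ω l E), fun l => ?_, E', fun l => ?_, ?_⟩
  · have h1 := pPULL k K L n hn hfin (fun _ => False) {1} m 0 y E hy hE (ω l) (hω l)
    have h2 : BdUp (k := k) (K := K) (L := L) (fun _ => False) = fun _ => False := by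
      funext w
      apply propext
      constructor
      · rintro ⟨_, _, _, h⟩
        exact h
      · intro h
        exact h.elim
    rw [h2, Finset.image_singleton, map_one] at h1
    exact h1
  · change (Matrix.of fun a b => E' a (algebraMap K L (y b))).det ^ m *
      algebraMap K L (ω l E) ≠ 0
    rw [hdet, one_pow, one_mul]
    exact (map_ne_zero_iff _ (algebraMap K L).injective).2 (hE0 l)
  · have h1 : (fun l : Fin A => (Matrix.of fun a b => E' a (algebraMap K L (y b))).det ^ m *
        algebraMap K L (ω l.succ E) / ((Matrix.of fun a b => E' a (algebraMap K L (y b))).det ^ m *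
        algebraMap K L (ω 0 E))) = fun l : Fin A =>
          IsScalarTower.toAlgHom k K L (ω l.succ D / ω 0 D) := by
      funext l
      rw [hdet, one_pow, one_mul, one_mul, hval, hval, mul_div_mul_left _ _ hdet0]
      change _ = algebraMap K L _
      rw [map_div₀]
    rw [h1]
    exact (AlgHom.algebraicIndependent_iff (IsScalarTower.toAlgHom k K L)
      (algebraMap K L).injective).2 hDi

end

theorem kod_mono {k K : Type*} [Field k] [Field K] [Algebra k K] {n a b : ℕ} (hab : a ≤ b)
    (h : KodTr k K n b) : KodTr k K n a := by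
  obtain ⟨m, hm, ω, hω, D, hD, hi⟩ := h
  refine ⟨m, hm, fun l => ω (Fin.castLE (by omega) l), fun l => hω _, D, fun l => hD _, ?_⟩
  exact hi.comp (Fin.castLE hab) (Fin.castLE_injective hab)

section

variable {k L : Type} [Field k] [Field L] [Algebra k L]

theorem trdeg_rel {K : Type} [Field K] [Algebra k K] (M : Type) [Field M] [Algebra k M]
    [Algebra M K] [IsScalarTower k M K] {m n : ℕ}
    (hM : Algebra.trdeg k M = m) (hL : Algebra.trdeg k K = (m + n : ℕ)) :
    Algebra.trdeg M K = n := by
  have h1 := trdeg_add_eq k M (A := K)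
  rw [hM, hL] at h1
  push_cast at h1
  exact Cardinal.eq_of_add_eq_add_left h1 (Cardinal.natCast_lt_aleph0)

variable [CharZero k] [IsAlgClosed k] {M P Q : IntermediateField k L}

/-- the existence of the frames -/
theorem exists_fr {m p f : ℕ} (hMQ : M ≤ Q) (h : Dim M P Q m p f) :
    ∃ (w : Fin p → P) (z : Fin f → extendScalars hMQ) (E : Fin (p + f) → Derivation M L L),
      Fr M P Q hMQ w z E ∧
      IsTranscendenceBasis M (Fin.append (fun l => (w l : L)) (fun l => (z l : L))) ∧
      ∀ i j, E i (Fin.append (fun l => (w l : L)) (fun l => (z l : L)) j) =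
        if i = j then 1 else 0 := by
  classical
  have hprd := Pool.Agent.Y173.KU.prd_of_trdeg h.sup h.tL h.tP h.tQ
  obtain ⟨w, hw⟩ : ∃ w : Fin p → P, IsTranscendenceBasis k w := exists_tb h.tP
  have hQ' : Algebra.trdeg M (extendScalars hMQ) = f := by
    have h1 : Algebra.trdeg k (extendScalars hMQ) = (m + f : ℕ) := h.tQ
    exact trdeg_rel (k := k) M h.tM h1
  have hL' : Algebra.trdeg M L = (p + f : ℕ) := by
    have h1 : Algebra.trdeg k L = (m + (p + f) : ℕ) := by
      rw [h.tL]
      congr 1
      omega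
    exact trdeg_rel (k := k) M h.tM h1
  obtain ⟨z, hz⟩ : ∃ z : Fin f → extendScalars hMQ, IsTranscendenceBasis M z := exists_tb hQ'
  have h1 : AlgebraicIndependent (extendScalars hMQ) (fun i => (w i : L)) :=
    ai_of_ld hprd.ld hw.1
  have h2 := indep_join (extendScalars hMQ) hz.1 h1
  have h3 : AlgebraicIndependent M (Sum.elim (fun l => (w l : L)) (fun l => (z l : L))) := by
    have h2 := h2.comp (Sum.swap : Fin p ⊕ Fin f → Fin f ⊕ Fin p) Sum.swap_leftInverse.injective
    have h3 : Sum.elim (fun l => (z l : L)) (fun l => (w l : L)) ∘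
        (Sum.swap : Fin p ⊕ Fin f → Fin f ⊕ Fin p) =
        Sum.elim (fun l => (w l : L)) (fun l => (z l : L)) := by
      funext i
      rcases i with i | i <;> rfl
    rwa [h3] at h2
  have h4 := indep_append h3
  have h5 : IsTranscendenceBasis M (Fin.append (fun l => (w l : L)) (fun l => (z l : L))) := by
    refine h4.isTranscendenceBasis_of_trdeg_le_of_finite ?_
    rw [hL']
    simp
  obtain ⟨E, hE⟩ := exists_duals h5
  have hEw : ∀ (l : Fin p) (j : Fin p), E (Fin.castAdd f l) (w j : L) =
      if l = j then 1 else 0 := by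
    intro l j
    have h1 := hE (Fin.castAdd f l) (Fin.castAdd f j)
    rw [Fin.append_left] at h1
    rw [h1]
    by_cases hlj : l = j
    · rw [if_pos hlj, if_pos (by rw [hlj])]
    · rw [if_neg hlj, if_neg fun h => hlj (Fin.castAdd_injective p f h)]
  have hEz : ∀ (l : Fin f) (j : Fin f), E (Fin.natAdd p l) (z j : L) =
      if l = j then 1 else 0 := by
    intro l j
    have h1 := hE (Fin.natAdd p l) (Fin.natAdd p j)
    rw [Fin.append_right] at h1
    rw [h1]
    by_cases hlj : l = j
    · rw [if_pos hlj, if_pos (by rw [hlj])]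
    · rw [if_neg hlj, if_neg fun h => hlj (Fin.natAdd_injective f p h)]
  have hEwz : ∀ (l : Fin p) (j : Fin f), E (Fin.castAdd f l) (z j : L) = 0 := by
    intro l j
    have h1 := hE (Fin.castAdd f l) (Fin.natAdd p j)
    rw [Fin.append_right, if_neg] at h1
    · exact h1
    · intro h2
      have h3 := congrArg Fin.val h2
      rw [Fin.val_castAdd, Fin.val_natAdd] at h3
      have := l.2
      omega
  have hEzw : ∀ (l : Fin f) (j : Fin p), E (Fin.natAdd p l) (w j : L) = 0 := by
    intro l j
    have h1 := hE (Fin.natAdd p l) (Fin.castAdd f j)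
    rw [Fin.append_left, if_neg] at h1
    · exact h1
    · intro h2
      have h3 := congrArg Fin.val h2
      rw [Fin.val_castAdd, Fin.val_natAdd] at h3
      have := j.2
      omega
  refine ⟨w, z, E, ⟨hw, hz, ?_, hEw, ?_, hEz⟩, h5, hE⟩
  · intro l β
    exact Pool.Agent.Y173.KU.der_zero_sub hz (fun j => hEwz l j) (⟨β, β.2⟩ : extendScalars hMQ)
  · intro l μ
    exact Pool.Agent.Y173.KU.der_zero_sub (D := (E (Fin.natAdd p l)).restrictScalars k) hw
      (fun j => hEzw l j) μ

theorem upKR (hSEC : S_SEC) (hCFP : S_CFP) (hCFQ : S_CFQ) (hTEN : S_TEN)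
    [Algebra.EssFiniteType k L] [Algebra.EssFiniteType k P] [Algebra.EssFiniteType k Q]
    {m p f : ℕ} (hMQ : M ≤ Q) (h : Dim M P Q m p f) {h' : ℕ} (hk : KodTr M L (p + f) h') :
    ∃ a b : ℕ, h' ≤ a + b ∧ KodTr k P p a ∧ KodTr M (extendScalars hMQ) f b := by
  classical
  obtain ⟨w, z, E, hFr, hZ, hE⟩ := exists_fr hMQ h
  obtain ⟨N, hN, ω, hω, D, hD0, hDi⟩ := hk
  obtain ⟨hn1, hi1⟩ := coeffs hω hD0 hDi hZ hE
  obtain ⟨A, hA⟩ : ∃ A : Set P, A = {μ | IsSec k P p (fun _ => False) {1} N 0
    (fun D => μ * (Matrix.of fun a b => D a (w b)).det ^ N)} := ⟨_, rfl⟩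
  obtain ⟨B, hB⟩ : ∃ B : Set (extendScalars hMQ), B = {β | IsSec M (extendScalars hMQ) f
    (fun _ => False) {1} N 0 (fun D => β * (Matrix.of fun a b => D a (z b)).det ^ N)} := ⟨_, rfl⟩
  obtain ⟨a, b, μ, β, hab, hμ, hβ, hμi, hβi⟩ := hTEN k L M P Q hMQ A B h' (fun l => ω l E) hn1 hi1
    (fun l => by
      obtain ⟨r, β, μ, hβ, hμ, hx⟩ := Pool.Agent.Y173.KU.Rank.mainR k L P Q _
        (hSEC k L M P Q m p f hMQ h w z E hFr N (ω l) (hω l))
      refine ⟨r, fun i => (⟨β i, (β i).2⟩ : extendScalars hMQ), μ, fun i => ⟨?_, ?_, ?_, ?_⟩, hx⟩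
      · rw [hB]
        exact hCFQ k L M P Q m p f hMQ h w z E hFr N (ω l) (hω l) r
          (fun i => (⟨β i, (β i).2⟩ : extendScalars hMQ)) μ hμ hx i
      · intro h0
        exact hβ.ne_zero i (Subtype.ext (congrArg Subtype.val h0))
      · rw [hA]
        exact hCFP k L M P Q m p f hMQ h w z E hFr N (ω l) (hω l) r β μ hβ hx i
      · exact hμ.ne_zero i)
  obtain ⟨EP, hEP⟩ := exists_duals hFr.bw
  obtain ⟨EQ, hEQ⟩ := exists_duals hFr.bz
  have hdP : (Matrix.of fun a b => EP a (w b)).det = 1 := by
    have h1 : (Matrix.of fun a b => EP a (w b)) = 1 := by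
      refine Matrix.ext fun a b => ?_
      rw [Matrix.of_apply, Matrix.one_apply]
      exact hEP a b
    rw [h1, Matrix.det_one]
  have hdQ : (Matrix.of fun a b => EQ a (z b)).det = 1 := by
    have h1 : (Matrix.of fun a b => EQ a (z b)) = 1 := by
      refine Matrix.ext fun a b => ?_
      rw [Matrix.of_apply, Matrix.one_apply]
      exact hEQ a b
    rw [h1, Matrix.det_one]
  refine ⟨a, b, hab, ⟨N, hN, fun l D => μ l * (Matrix.of fun a b => D a (w b)).det ^ N,
    fun l => ?_, EP, fun l => ?_, ?_⟩, ⟨N, hN, fun l D => β l *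
      (Matrix.of fun a b => D a (z b)).det ^ N, fun l => ?_, EQ, fun l => ?_, ?_⟩⟩
  · have h1 := (hμ l).1
    rw [hA] at h1
    exact h1
  · simp only [hdP, one_pow, mul_one]
    exact (hμ l).2
  · simp only [hdP, one_pow, mul_one]
    exact hμi
  · have h1 := (hβ l).1
    rw [hB] at h1
    exact h1
  · simp only [hdQ, one_pow, mul_one]
    exact (hβ l).2
  · simp only [hdQ, one_pow, mul_one]
    exact hβi

end

end Pool.Agent.Y173.KR
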